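import Pool.Agent.H888.SF.Defs
import Pool.Agent.H888.WA.V14
import Pool.Agent.H888.DH.Loc11

set_option linter.unusedVariables false
set_option linter.unusedSectionVars false
set_option linter.style.haveILetI false

namespace Pool.Agent.H888.SF

open Finset MvPolynomial Pool.Agent.H888.DH

/-- A form at a scaled vector. -/
theorem aeval_scale {R : Type*} [CommRing R] {m k : ℕ} {F : MvPolynomial (Fin m) ℤ}
    (hF : F.IsHomogeneous k) (c : R) (x : Fin m → R) :
    aeval (fun l => c * x l) F = c ^ k * aeval x F := by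
  rw [aeval_def, aeval_def, eval₂_eq', eval₂_eq', Finset.mul_sum]
  apply Finset.sum_congr rfl
  intro d hd
  have hdeg : ∑ l, d l = k := by
    have h1 := hF (mem_support_iff.mp hd)
    rw [← h1]
    simp [Finsupp.weight_apply, Finsupp.sum_fintype]
  simp only [mul_pow, Finset.prod_mul_distrib]
  rw [Finset.prod_pow_eq_pow_sum, hdeg]
  ring

/-- Values at integral vectors. -/
theorem aeval_intCast {R : Type*} [CommRing R] {m : ℕ} (F : MvPolynomial (Fin m) ℤ) (x : Fin m → ℤ) :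
    aeval (fun l => (x l : R)) F = ((aeval x F : ℤ) : R) := by
  rw [aeval_def, aeval_def, eval₂_eq', eval₂_eq']
  push_cast
  simp

theorem val_intCast {R : Type*} [CommRing R] {s : ℕ} {n : Fin s → ℕ} (F : ∀ i, MvPolynomial (Fin (n i)) ℤ)
    (a : Fin s → ℤ) (y : Blk n ℤ) :
    val F (fun i => (a i : R)) (fun i l => (y i l : R)) = ((val F a y : ℤ) : R) := by
  unfold val
  push_cast
  apply Finset.sum_congr rfl
  intro i _
  rw [aeval_intCast]

/-- Congruent vectors have congruent values. -/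
theorem aeval_congr {R : Type*} [CommRing R] {m : ℕ} (F : MvPolynomial (Fin m) ℤ) (x y : Fin m → R) (q : R)
    (h : ∀ l, q ∣ x l - y l) : q ∣ aeval x F - aeval y F := by
  rw [← Ideal.mem_span_singleton, ← Ideal.Quotient.eq]
  have h1 : ∀ z : Fin m → R, (Ideal.Quotient.mk (Ideal.span {q})) (aeval z F) =
      aeval (fun l => (Ideal.Quotient.mk (Ideal.span {q})) (z l)) F := by
    intro z
    rw [aeval_def, aeval_def, eval₂_eq', eval₂_eq', map_sum]
    apply Finset.sum_congr rfl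
    intro d _
    rw [map_mul, map_prod]
    simp
  have h2 : (fun l => (Ideal.Quotient.mk (Ideal.span {q})) (x l)) =
      fun l => (Ideal.Quotient.mk (Ideal.span {q})) (y l) := by
    funext l
    rw [Ideal.Quotient.eq, Ideal.mem_span_singleton]
    exact h l
  rw [h1, h1, h2]

theorem form_ne_zero {m : ℕ} (hm : 1 ≤ m) {F : MvPolynomial (Fin m) ℤ} (hF : SmoothForm F) : F ≠ 0 := by
  intro h0
  have := hF ℚ (fun _ => 1) (fun l => by rw [h0]; simp)
  have h1 := congrFun this ⟨0, by omega⟩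
  simp at h1

theorem exists_int_ne_zero {m : ℕ} {F : MvPolynomial (Fin m) ℤ} (hF : F ≠ 0) :
    ∃ x : Fin m → ℤ, aeval x F ≠ (0 : ℤ) := by
  by_contra hc
  push Not at hc
  apply hF
  apply MvPolynomial.funext
  intro x
  rw [map_zero]
  have := hc x
  rwa [aeval_def, eval₂_eq_eval_map, Algebra.algebraMap_self, map_id] at this

theorem card_pairs (r H p0 : ℕ) (hp0 : 1 ≤ p0) (S : Finset (Fin (r + 1) → ℤ))
    (hS : ∀ a ∈ S, a ∈ boxA (r + 1) H ∧ ∃ p : ℕ, p.Prime ∧ p0 < p ∧ p ≤ H ∧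
      ∃ o o', o ≠ o' ∧ (p : ℤ) ∣ a o ∧ (p : ℤ) ∣ a o') :
    (S.card : ℝ) ≤ (r + 1) ^ 2 * 3 ^ (r + 1) * (H : ℝ) ^ (r + 1) * (1 / p0) := by
  classical
  have hsub2 : S ⊆ (Finset.Ioc p0 H).biUnion (fun p => (Finset.univ ×ˢ Finset.univ).biUnion
      (fun oo : Fin (r + 1) × Fin (r + 1) => S.filter (fun b => oo.1 ≠ oo.2 ∧ (p : ℤ) ∣ b oo.1 ∧ (p : ℤ) ∣ b oo.2))) := by
    intro b hb
    obtain ⟨hb1, p, hp, hp1, hp2, o, o', hoo, h1, h2⟩ := hS b hb
    rw [Finset.mem_biUnion]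
    refine ⟨p, Finset.mem_Ioc.mpr ⟨hp1, hp2⟩, ?_⟩
    rw [Finset.mem_biUnion]
    exact ⟨(o, o'), by simp, Finset.mem_filter.mpr ⟨hb, hoo, h1, h2⟩⟩
  have h2 : ∑ p ∈ Finset.Ioc p0 H, ((p : ℝ) ^ 2)⁻¹ ≤ 1 / p0 := by
    rcases le_total p0 H with h | h
    · have := sum_Ioc_inv_sq_le_sub (α := ℝ) (k := p0) (n := H) (by omega) h
      refine this.trans ?_
      have : (0 : ℝ) ≤ (H : ℝ)⁻¹ := by positivity
      rw [one_div]; linarith
    · rw [Finset.Ioc_eq_empty (by omega)]; simp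
  calc (S.card : ℝ) ≤ (((Finset.Ioc p0 H).biUnion (fun p => (Finset.univ ×ˢ Finset.univ).biUnion
      (fun oo : Fin (r + 1) × Fin (r + 1) => S.filter (fun b => oo.1 ≠ oo.2 ∧ (p : ℤ) ∣ b oo.1 ∧ (p : ℤ) ∣ b oo.2)))).card : ℝ) :=
        Nat.cast_le.mpr (Finset.card_le_card hsub2)
    _ ≤ ∑ p ∈ Finset.Ioc p0 H, (((Finset.univ ×ˢ Finset.univ).biUnion
      (fun oo : Fin (r + 1) × Fin (r + 1) => S.filter (fun b => oo.1 ≠ oo.2 ∧ (p : ℤ) ∣ b oo.1 ∧ (p : ℤ) ∣ b oo.2))).card : ℝ) := by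
        exact_mod_cast Finset.card_biUnion_le
    _ ≤ ∑ p ∈ Finset.Ioc p0 H, ∑ oo ∈ (Finset.univ ×ˢ Finset.univ : Finset (Fin (r + 1) × Fin (r + 1))),
        ((S.filter (fun b => oo.1 ≠ oo.2 ∧ (p : ℤ) ∣ b oo.1 ∧ (p : ℤ) ∣ b oo.2)).card : ℝ) := by
        apply Finset.sum_le_sum
        intro p _
        exact_mod_cast Finset.card_biUnion_le
    _ ≤ ∑ p ∈ Finset.Ioc p0 H, ∑ oo ∈ (Finset.univ ×ˢ Finset.univ : Finset (Fin (r + 1) × Fin (r + 1))),
        3 ^ (r + 1) * (H : ℝ) ^ (r + 1) * ((p : ℝ) ^ 2)⁻¹ := by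
        apply Finset.sum_le_sum
        intro p hp
        rw [Finset.mem_Ioc] at hp
        apply Finset.sum_le_sum
        intro oo _
        by_cases hoo : oo.1 = oo.2
        · have : S.filter (fun b => oo.1 ≠ oo.2 ∧ (p : ℤ) ∣ b oo.1 ∧ (p : ℤ) ∣ b oo.2) = ∅ := by
            apply Finset.filter_false_of_mem
            intro b _ h
            exact h.1 hoo
          rw [this]; simp; positivity
        · apply card_two_div (r + 1) H p (by omega) hp.2 oo.1 oo.2 hoo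
          intro b hb
          rw [Finset.mem_filter] at hb
          exact ⟨(hS b hb.1).1, hb.2.2⟩
    _ = (r + 1) ^ 2 * 3 ^ (r + 1) * (H : ℝ) ^ (r + 1) * ∑ p ∈ Finset.Ioc p0 H, ((p : ℝ) ^ 2)⁻¹ := by
        rw [Finset.mul_sum]
        apply Finset.sum_congr rfl
        intro p _
        rw [Finset.sum_const, Finset.card_product, Finset.card_univ, Fintype.card_fin, nsmul_eq_mul]
        push_cast; ring
    _ ≤ (r + 1) ^ 2 * 3 ^ (r + 1) * (H : ℝ) ^ (r + 1) * (1 / p0) := by gcongr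

end Pool.Agent.H888.SF
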