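import Pool.Agent.H888.SF.Core

set_option linter.unusedVariables false
set_option linter.unusedSectionVars false
set_option linter.style.haveILetI false

namespace Pool.Agent.H888.SF

open Finset MvPolynomial Pool.Agent.H888.DH

theorem exists_nat_bound {ι : Type*} [Finite ι] (f : ι → ℝ) : ∃ C : ℕ, ∀ i, f i ≤ C := by
  obtain ⟨M, hM⟩ := Finite.exists_le f
  obtain ⟨C, hC⟩ := exists_nat_ge M
  exact ⟨C, fun i => (hM i).trans hC⟩

theorem exists_two_pow (x ε : ℝ) (hε : 0 < ε) : ∃ M : ℕ, x / 2 ^ (M + 1) ≤ ε := by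
  obtain ⟨M, hM⟩ := pow_unbounded_of_one_lt (x / ε) (by norm_num : (1 : ℝ) < 2)
  refine ⟨M, ?_⟩
  rw [div_le_iff₀ (by positivity)]
  rw [div_lt_iff₀ hε] at hM
  have : (2 : ℝ) ^ M ≤ 2 ^ (M + 1) := pow_le_pow_right₀ (by norm_num) (by omega)
  nlinarith

theorem sf_bound (hT2 : S_recP) (hT4 : S_recR) (hT5 : S_sel) {k r : ℕ} {n : Fin (r + 1) → ℕ}
    {F : ∀ i, MvPolynomial (Fin (n i)) ℤ} (hA : Adm k (r + 1) n F) (hk : 3 ≤ k) (hr : 2 * k + 1 ≤ r)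
    (m : ℕ) (hm : 1 ≤ m) (ε : ℝ) (hε : 0 < ε) :
    ∃ H0 : ℕ, ∀ H : ℕ, H0 ≤ H → ∀ S : Finset (Fin (r + 1) → ℤ),
      (∀ a ∈ S, a ∈ boxA (r + 1) H ∧ (∀ i, a i ≠ 0) ∧
        ∃ (y : Blk n ℝ) (u : ∀ p : ℕ, ∀ _ : Fact p.Prime, Blk n ℤ_[p]),
          ((∀ i l, |y i l| ≤ 1) ∧ (∃ i l, |y i l| = 1) ∧ val F (fun i => (a i : ℝ)) y = 0) ∧
          (∀ (p : ℕ) (hp : Fact p.Prime), (∃ i l, IsUnit (u p hp i l)) ∧
            val F (fun i => (a i : ℤ_[p])) (u p hp) = 0) ∧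
          ¬ ApproxSF F m H a y u) →
      (S.card : ℝ) ≤ ε * (H : ℝ) ^ (r + 1) := by
  classical
  have hmR : (1 : ℝ) ≤ m := by exact_mod_cast hm
  have hex := fun i => exists_int_ne_zero (form_ne_zero (hA.npos i) (hA.smooth i))
  choose u0 hu0 using hex
  -- p0
  obtain ⟨A0, hA0⟩ := exists_nat_bound (fun i : Fin (r + 1) => ((|aeval (u0 i) (F i)| : ℤ) : ℝ))
  obtain ⟨P1, hP1⟩ := exists_nat_ge (4 * ((r : ℝ) + 1) ^ 2 * 3 ^ (r + 1) / ε)
  set p0 := max (max k m) (max A0 P1) with hp0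
  have hkp : k ≤ p0 := (le_max_left _ _).trans (le_max_left _ _)
  have hmp : m ≤ p0 := (le_max_right _ _).trans (le_max_left _ _)
  have hA0p : A0 ≤ p0 := (le_max_left _ _).trans (le_max_right _ _)
  have hP1p : P1 ≤ p0 := (le_max_right _ _).trans (le_max_right _ _)
  have hp01 : 1 ≤ p0 := by omega
  have hu0p : ∀ i, |aeval (u0 i) (F i)| ≤ (p0 : ℤ) := by
    intro i
    have h1 := hA0 i
    have h2 : (A0 : ℝ) ≤ p0 := by exact_mod_cast hA0p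
    exact_mod_cast h1.trans h2
  -- M and ρ
  obtain ⟨M, hM⟩ := exists_two_pow (((p0 : ℝ) + 1) * (r + 1) * 3 ^ (r + 1)) (ε / 4) (by positivity)
  set ρ : ℝ := ε / (4 * (r + 1) * 3 ^ (r + 1)) with hρ
  have hρ0 : 0 < ρ := by rw [hρ]; positivity
  -- recipes
  have hEp := fun (p : ℕ) (hp : Fact p.Prime) => hT2 p hp k (r + 1) n F (by omega) (by omega) hA M m
  choose Ep hEp using hEp
  set E := ∑ p ∈ Finset.range (p0 + 1), (if hp : p.Prime then Ep p ⟨hp⟩ else 0) with hE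
  have hEle : ∀ (p : ℕ) (hp : Fact p.Prime), p ≤ p0 → Ep p hp ≤ E := by
    intro p hp hpp
    have h1 := Finset.single_le_sum (f := fun p : ℕ => (if hp : p.Prime then Ep p ⟨hp⟩ else 0))
      (fun _ _ => Nat.zero_le _) (Finset.mem_range.mpr (by omega : p < p0 + 1))
    simp only [dif_pos hp.out] at h1
    exact h1
  have hrecP : ∀ (p : ℕ) (hp : Fact p.Prime), p ≤ p0 → ∀ (a : Fin (r + 1) → ℤ_[p]) (u : Blk n ℤ_[p]),
      (∀ i, ¬ (p : ℤ_[p]) ^ (M + 1) ∣ a i) → (∃ i l, IsUnit (u i l)) → val F a u = 0 →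
      ∃ c : Blk n ℤ_[p], ∀ v : Blk n ℤ_[p], (∀ i l, (p : ℤ_[p]) ^ E ∣ v i l - c i l) →
      (∀ i l, (p : ℤ_[p]) ^ m ∣ v i l - u i l) ∧
      ∃ x : Fin (r + 1) → ℤ_[p], (∀ i, (p : ℤ_[p]) ^ m ∣ x i - 1) ∧
        ∑ i, a i * aeval (v i) (F i) * x i ^ k = 0 := by
    intro p hp hpp a u h1 h2 h3
    obtain ⟨c, hc⟩ := hEp p hp a u h1 h2 h3
    refine ⟨c, fun v hv => hc v (fun i l => ?_)⟩
    exact (pow_dvd_pow _ (hEle p hp hpp)).trans (hv i l)
  obtain ⟨η, hη, hrecR⟩ := hT4 k (r + 1) n F (by omega) (by omega) hA ρ (1 / (8 * m)) hρ0 (by positivity)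
  obtain ⟨g0, hg0⟩ := exists_nat_ge (2 / η)
  set g := g0 + 1 with hg
  have hgη : 1 / (g : ℝ) ≤ η / 2 := by
    have h1 : 2 / η ≤ (g : ℝ) := by rw [hg]; push_cast; linarith
    have h2 : (0 : ℝ) < 2 / η := by positivity
    calc 1 / (g : ℝ) ≤ 1 / (2 / η) := one_div_le_one_div_of_le h2 h1
      _ = η / 2 := by rw [one_div_div]
  -- the vectors
  have hsel := fun κ : Key n p0 ((p0 + 1) ^ E) (4 * g + 1) =>
    hT5 (r + 1) n F u0 p0 hu0 hu0p E κ.res (κ.dir g) (η / 2) (by positivity)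
  choose v lam hsel1 hsel2 hsel3 hsel4 hsel5 using hsel
  obtain ⟨C0, hC0⟩ := exists_nat_bound
    (fun q : Key n p0 ((p0 + 1) ^ E) (4 * g + 1) × Fin (r + 1) => ((|aeval (v q.1 q.2) (F q.2)| : ℤ) : ℝ))
  obtain ⟨V, hV0⟩ := exists_nat_bound
    (fun q : Key n p0 ((p0 + 1) ^ E) (4 * g + 1) × (Σ i : Fin (r + 1), Fin (n i)) =>
      ((|v q.1 q.2.1 q.2.2| : ℤ) : ℝ))
  obtain ⟨Λ, hΛ0⟩ := exists_nat_bound
    (fun q : Key n p0 ((p0 + 1) ^ E) (4 * g + 1) × Fin (r + 1) => 1 / lam q.1 q.2)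
  set C := C0 + 1 with hCdef
  have hC : ∀ κ i, |aeval (v κ i) (F i)| ≤ (C : ℤ) := by
    intro κ i
    have h1 := hC0 (κ, i)
    simp only at h1
    have h2 : |aeval (v κ i) (F i)| ≤ (C0 : ℤ) := by exact_mod_cast h1
    rw [hCdef]; push_cast; linarith
  have hV : ∀ κ i l, |v κ i l| ≤ (V : ℤ) := by
    intro κ i l
    have h1 := hV0 (κ, ⟨i, l⟩)
    simp only at h1
    exact_mod_cast h1
  have hΛ : ∀ κ i, 1 / lam κ i ≤ Λ := fun κ i => hΛ0 (κ, i)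
  set m2 := max (m + 2) (4 * m * Λ * V) with hm2
  set Nk := Fintype.card (Key n p0 ((p0 + 1) ^ E) (4 * g + 1)) with hNk
  obtain ⟨H2, hH2⟩ := wa_bound k r m2 hk hr (by omega) (ε / (4 * (Nk + 1) * (C : ℝ) ^ (r + 1))) (by positivity)
  obtain ⟨H3, hH3⟩ := exists_nat_ge (1 / ρ)
  refine ⟨max (max H2 H3) (max (p0 ^ (M + 1)) (V ^ 6 * C ^ 2 + 1)), ?_⟩
  intro H hH S hS
  have hHH2 : H2 ≤ H := (le_max_left _ _).trans ((le_max_left _ _).trans hH)
  have hHH3 : H3 ≤ H := (le_max_right _ _).trans ((le_max_left _ _).trans hH)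
  have hHp : p0 ^ (M + 1) ≤ H := (le_max_left _ _).trans ((le_max_right _ _).trans hH)
  have hHV1 : V ^ 6 * C ^ 2 + 1 ≤ H := (le_max_right _ _).trans ((le_max_right _ _).trans hH)
  have hH1 : 1 ≤ H := by omega
  have hHR : (1 : ℝ) ≤ H := by exact_mod_cast hH1
  have hHV : (V : ℤ) ^ 6 * ((C * H : ℕ) : ℤ) ^ 2 ≤ (H : ℤ) ^ 3 := by
    have h1 : V ^ 6 * (C * H) ^ 2 ≤ H ^ 3 := by
      calc V ^ 6 * (C * H) ^ 2 = (V ^ 6 * C ^ 2) * H ^ 2 := by ring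
        _ ≤ H * H ^ 2 := Nat.mul_le_mul_right _ (by omega)
        _ = H ^ 3 := by ring
    exact_mod_cast h1
  set S1 := S.filter (fun a => ∃ o, |(a o : ℝ)| < ρ * H) with hS1
  set S2 := S.filter (fun a => ∃ p : ℕ, p.Prime ∧ p ≤ p0 ∧ ∃ o, (p : ℤ) ^ (M + 1) ∣ a o) with hS2
  set S3 := S.filter (fun a => ∃ p : ℕ, p.Prime ∧ p0 < p ∧ p ≤ H ∧
      ∃ o o', o ≠ o' ∧ (p : ℤ) ∣ a o ∧ (p : ℤ) ∣ a o') with hS3
  set Sκ : Key n p0 ((p0 + 1) ^ E) (4 * g + 1) → Finset (Fin (r + 1) → ℤ) :=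
    fun κ => S.filter (fun a => BadB k (r + 1) m2 (C * H) (bb F (v κ) a)) with hSκ
  have hsub : S ⊆ (S1 ∪ S2) ∪ (S3 ∪ Finset.univ.biUnion Sκ) := by
    intro a ha
    by_contra hc
    rw [Finset.mem_union, Finset.mem_union, Finset.mem_union, Finset.mem_biUnion] at hc
    push Not at hc
    obtain ⟨⟨h1, h2⟩, h3, h4⟩ := hc
    obtain ⟨hab, ha0, y, u, ⟨hy1, hy2, hy3⟩, hu, hna⟩ := hS a ha
    obtain ⟨κ, hκ⟩ := core hA hk hr m hm p0 M E g ρ η hkp hmp (by omega) hgη hrecP hrecR v lam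
      hsel1 hsel2 hsel3 hsel4 hsel5 C V Λ m2 H hC hV hΛ (by omega) (by omega) (le_max_right _ _)
      hH1 hHV a hab ha0 (by
        intro i
        by_contra hlt
        push Not at hlt
        exact h1 (Finset.mem_filter.mpr ⟨ha, i, hlt⟩)) (by
        intro p hp hpp i hdvd
        exact h2 (Finset.mem_filter.mpr ⟨ha, p, hp, hpp, i, hdvd⟩)) (by
        intro p hp hpp hpH o o' hoo hd1 hd2
        exact h3 (Finset.mem_filter.mpr ⟨ha, p, hp, hpp, hpH, o, o', hoo, hd1, hd2⟩))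
      y u hy1 hy2 hy3 hu hna
    exact h4 κ (Finset.mem_univ _) (Finset.mem_filter.mpr ⟨ha, hκ⟩)
  have hε' : 0 < (H : ℝ) ^ (r + 1) := by positivity
  have c1 : (S1.card : ℝ) ≤ ε / 4 * (H : ℝ) ^ (r + 1) := by
    have h1 : 1 ≤ ρ * H := by
      have h2 : 1 / ρ ≤ H := hH3.trans (by exact_mod_cast hHH3)
      rw [div_le_iff₀ hρ0] at h2
      linarith
    refine (card_E1 r H ρ hρ0 h1 S1 ?_).trans ?_
    · intro a ha
      rw [hS1, Finset.mem_filter] at ha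
      exact ⟨(hS a ha.1).1, ha.2⟩
    · apply le_of_eq
      rw [hρ]
      field_simp
  have c2 : (S2.card : ℝ) ≤ ε / 4 * (H : ℝ) ^ (r + 1) := by
    refine (card_E2 r H p0 M hHp hH1 S2 ?_).trans ?_
    · intro a ha
      rw [hS2, Finset.mem_filter] at ha
      exact ⟨(hS a ha.1).1, ha.2⟩
    · have : ((p0 : ℝ) + 1) * (r + 1) * (3 ^ (r + 1) / 2 ^ (M + 1)) =
          (((p0 : ℝ) + 1) * (r + 1) * 3 ^ (r + 1)) / 2 ^ (M + 1) := by ring
      rw [this]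
      gcongr
  have c3 : (S3.card : ℝ) ≤ ε / 4 * (H : ℝ) ^ (r + 1) := by
    refine (card_pairs r H p0 hp01 S3 ?_).trans ?_
    · intro a ha
      rw [hS3, Finset.mem_filter] at ha
      exact ⟨(hS a ha.1).1, ha.2⟩
    · have hp0R : (0 : ℝ) < p0 := by exact_mod_cast hp01
      have h1 : 4 * ((r : ℝ) + 1) ^ 2 * 3 ^ (r + 1) / ε ≤ p0 := hP1.trans (by exact_mod_cast hP1p)
      rw [div_le_iff₀ hε] at h1
      rw [mul_one_div, div_le_iff₀ hp0R]
      nlinarith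
  have c4 : ∀ κ, ((Sκ κ).card : ℝ) ≤ ε / (4 * (Nk + 1)) * (H : ℝ) ^ (r + 1) := by
    intro κ
    have hinj : Function.Injective (bb F (v κ)) := by
      intro a b h
      funext i
      have h1 := congrFun h i
      unfold bb at h1
      exact mul_right_cancel₀ (hsel4 κ i) h1
    rw [← Finset.card_image_of_injective (Sκ κ) hinj]
    have h2 := hH2 (C * H) (hHH2.trans (Nat.le_mul_of_pos_left H (by omega))) ((Sκ κ).image (bb F (v κ))) (by
      intro b hb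
      rw [Finset.mem_image] at hb
      obtain ⟨a, ha, rfl⟩ := hb
      rw [hSκ, Finset.mem_filter] at ha
      exact ha.2)
    refine h2.trans (le_of_eq ?_)
    have hCR : (0 : ℝ) < C := by exact_mod_cast (by omega : 0 < C)
    push_cast
    rw [mul_pow]
    field_simp
  have c5 : ((Finset.univ.biUnion Sκ).card : ℝ) ≤ ε / 4 * (H : ℝ) ^ (r + 1) := by
    calc ((Finset.univ.biUnion Sκ).card : ℝ) ≤ ∑ κ, ((Sκ κ).card : ℝ) := by
          exact_mod_cast Finset.card_biUnion_le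
      _ ≤ ∑ κ : Key n p0 ((p0 + 1) ^ E) (4 * g + 1), ε / (4 * (Nk + 1)) * (H : ℝ) ^ (r + 1) :=
          Finset.sum_le_sum (fun κ _ => c4 κ)
      _ = Nk * (ε / (4 * (Nk + 1)) * (H : ℝ) ^ (r + 1)) := by
          rw [Finset.sum_const, Finset.card_univ, nsmul_eq_mul]
      _ = (Nk / (Nk + 1)) * (ε / 4 * (H : ℝ) ^ (r + 1)) := by field_simp
      _ ≤ 1 * (ε / 4 * (H : ℝ) ^ (r + 1)) := by
          gcongr
          rw [div_le_one (by positivity)]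
          linarith
      _ = _ := one_mul _
  have hcard : (S.card : ℝ) ≤ (S1.card + S2.card) + (S3.card + (Finset.univ.biUnion Sκ).card) := by
    have h1 := (Finset.card_le_card hsub).trans (Finset.card_union_le _ _)
    have h2 := Finset.card_union_le S1 S2
    have h3 := Finset.card_union_le S3 (Finset.univ.biUnion Sκ)
    exact_mod_cast h1.trans (add_le_add h2 h3)
  linarith

end Pool.Agent.H888.SF
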