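import Pool.Agent.H888.SF.Main

set_option linter.unusedVariables false
set_option linter.unusedSectionVars false
set_option linter.style.haveILetI false

namespace Pool.Agent.H888.SF

open Finset MvPolynomial Pool.Agent.H888.DH

/-- The diagonal coefficients attached to `a` and the integral vectors `v`. -/
noncomputable def bb {s : ℕ} {n : Fin s → ℕ} (F : ∀ i, MvPolynomial (Fin (n i)) ℤ) (v : Blk n ℤ)
    (a : Fin s → ℤ) : Fin s → ℤ := fun i => a i * aeval (v i) (F i)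

/-- `b` is everywhere locally soluble, but weak approximation fails. -/
def BadB (k s m H : ℕ) (b : Fin s → ℤ) : Prop :=
  b ∈ boxA s H ∧ (∀ p : ℕ, ∀ _ : Fact p.Prime, Sol ℚ_[p] k s b) ∧
    ∃ (y : Fin s → ℝ) (u : ∀ p : ℕ, ∀ _ : Fact p.Prime, Fin s → ℤ_[p]),
      ((∀ o, |y o| ≤ 1) ∧ (∃ o, |y o| = 1) ∧ ∑ o, (b o : ℝ) * (y o) ^ k = 0) ∧
      (∀ (p : ℕ) (hp : Fact p.Prime), p ≤ m → PrimZ p k s b (u p hp)) ∧
      ¬ ApproxQ k s m H b y u

theorem core {k r : ℕ} {n : Fin (r + 1) → ℕ} {F : ∀ i, MvPolynomial (Fin (n i)) ℤ}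
    (hA : Adm k (r + 1) n F) (hk : 3 ≤ k) (hr : 2 * k + 1 ≤ r) (m : ℕ) (hm : 1 ≤ m)
    (p0 M E g : ℕ) (ρ η : ℝ) (hkp : k ≤ p0) (hmp : m ≤ p0) (hg : 1 ≤ g) (hgη : 1 / (g : ℝ) ≤ η / 2)
    (hrecP : ∀ (p : ℕ) (hp : Fact p.Prime), p ≤ p0 → ∀ (a : Fin (r + 1) → ℤ_[p]) (u : Blk n ℤ_[p]),
      (∀ i, ¬ (p : ℤ_[p]) ^ (M + 1) ∣ a i) → (∃ i l, IsUnit (u i l)) → val F a u = 0 →
      ∃ c : Blk n ℤ_[p], ∀ v : Blk n ℤ_[p], (∀ i l, (p : ℤ_[p]) ^ E ∣ v i l - c i l) →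
      (∀ i l, (p : ℤ_[p]) ^ m ∣ v i l - u i l) ∧
      ∃ x : Fin (r + 1) → ℤ_[p], (∀ i, (p : ℤ_[p]) ^ m ∣ x i - 1) ∧
        ∑ i, a i * aeval (v i) (F i) * x i ^ k = 0)
    (hrecR : ∀ (a : Fin (r + 1) → ℝ) (y : Blk n ℝ), (∀ i, ρ ≤ |a i| ∧ |a i| ≤ 1) →
      (∀ i l, |y i l| ≤ 1) → (∃ i l, |y i l| = 1) → val F a y = 0 →
      ∃ c : Blk n ℝ, (∀ i l, |c i l| ≤ 2) ∧ ∀ w : Blk n ℝ, (∀ i l, |w i l - c i l| ≤ η) →
      (∀ i l, |w i l - y i l| ≤ 1 / (8 * m)) ∧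
      ∃ x : Fin (r + 1) → ℝ, (∀ i, |x i - 1| ≤ 1 / (8 * m)) ∧ ∑ i, a i * aeval (w i) (F i) * x i ^ k = 0)
    (v : Key n p0 ((p0 + 1) ^ E) (4 * g + 1) → Blk n ℤ)
    (lam : Key n p0 ((p0 + 1) ^ E) (4 * g + 1) → Fin (r + 1) → ℝ)
    (hsel1 : ∀ κ i, 0 < lam κ i)
    (hsel2 : ∀ κ i l, |(v κ i l : ℝ) / lam κ i - κ.dir g i l| ≤ η / 2)
    (hsel3 : ∀ κ, ∀ p : ℕ, p.Prime → p ≤ p0 → ∀ i l, (p : ℤ) ^ E ∣ v κ i l - κ.res p i l)
    (hsel4 : ∀ κ i, aeval (v κ i) (F i) ≠ (0 : ℤ))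
    (hsel5 : ∀ κ, ∀ p : ℕ, p.Prime → p0 < p → ∀ i j, i ≠ j → (p : ℤ) ∣ aeval (v κ i) (F i) →
      ¬ (p : ℤ) ∣ aeval (v κ j) (F j))
    (C V Λ m2 H : ℕ) (hC : ∀ κ i, |aeval (v κ i) (F i)| ≤ (C : ℤ)) (hV : ∀ κ i l, |v κ i l| ≤ (V : ℤ))
    (hΛ : ∀ κ i, 1 / lam κ i ≤ Λ) (hm2a : m ≤ m2) (hm2b : 2 ≤ m2) (hm2c : 4 * m * Λ * V ≤ m2)
    (hH : 1 ≤ H) (hHV : (V : ℤ) ^ 6 * ((C * H : ℕ) : ℤ) ^ 2 ≤ (H : ℤ) ^ 3)
    (a : Fin (r + 1) → ℤ) (ha : a ∈ boxA (r + 1) H) (ha0 : ∀ i, a i ≠ 0)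
    (haρ : ∀ i, ρ * H ≤ |(a i : ℝ)|)
    (haM : ∀ p : ℕ, p.Prime → p ≤ p0 → ∀ i, ¬ (p : ℤ) ^ (M + 1) ∣ a i)
    (hpair : ∀ p : ℕ, p.Prime → p0 < p → p ≤ H → ∀ o o', o ≠ o' → (p : ℤ) ∣ a o → ¬ (p : ℤ) ∣ a o')
    (y : Blk n ℝ) (u : ∀ p : ℕ, ∀ _ : Fact p.Prime, Blk n ℤ_[p])
    (hy1 : ∀ i l, |y i l| ≤ 1) (hy2 : ∃ i l, |y i l| = 1) (hy3 : val F (fun i => (a i : ℝ)) y = 0)
    (hu : ∀ (p : ℕ) (hp : Fact p.Prime), (∃ i l, IsUnit (u p hp i l)) ∧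
      val F (fun i => (a i : ℤ_[p])) (u p hp) = 0)
    (hna : ¬ ApproxSF F m H a y u) :
    ∃ κ, BadB k (r + 1) m2 (C * H) (bb F (v κ) a) := by
  classical
  have hmR : (1 : ℝ) ≤ m := by exact_mod_cast hm
  have hHR : (0 : ℝ) < H := by exact_mod_cast (by omega : 0 < H)
  have habox := mem_boxA.mp ha
  -- the p-adic classes
  have hcp : ∀ (p : ℕ) (hp : Fact p.Prime), ∃ c : Blk n ℤ_[p], p ≤ p0 →
      ∀ v : Blk n ℤ_[p], (∀ i l, (p : ℤ_[p]) ^ E ∣ v i l - c i l) →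
      (∀ i l, (p : ℤ_[p]) ^ m ∣ v i l - u p hp i l) ∧
      ∃ x : Fin (r + 1) → ℤ_[p], (∀ i, (p : ℤ_[p]) ^ m ∣ x i - 1) ∧
        ∑ i, (a i : ℤ_[p]) * aeval (v i) (F i) * x i ^ k = 0 := by
    intro p hp
    by_cases hpp : p ≤ p0
    · obtain ⟨c, hc⟩ := hrecP p hp hpp (fun i => (a i : ℤ_[p])) (u p hp) (by
        intro i hdvd
        exact haM p hp.out hpp i ((padic_pow_dvd_int (a i) (M + 1)).mp hdvd)) (hu p hp).1 (hu p hp).2
      exact ⟨c, fun _ => hc⟩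
    · exact ⟨fun _ _ => 0, fun h => absurd h hpp⟩
  choose cp hcp using hcp
  -- the real direction
  obtain ⟨cr, hcr1, hcr2⟩ := hrecR (fun i => (a i : ℝ) / H) y (by
    intro i
    have h1 : |(a i : ℝ)| ≤ H := by
      have := habox i
      exact_mod_cast this
    simp only [abs_div, abs_of_pos hHR]
    refine ⟨?_, ?_⟩
    · rw [le_div_iff₀ hHR]; exact haρ i
    · rw [div_le_one hHR]; exact h1) hy1 hy2 (by
    unfold val at hy3 ⊢
    have : ∀ i, (a i : ℝ) / H * aeval (y i) (F i) = (1 / H) * ((a i : ℝ) * aeval (y i) (F i)) := by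
      intro i; ring
    rw [Finset.sum_congr rfl (fun i _ => this i), ← Finset.mul_sum, hy3, mul_zero])
  obtain ⟨κ, hκ1, hκ2⟩ := exists_key p0 E g hg cp cr hcr1
  refine ⟨κ, ?_⟩
  set w : Blk n ℝ := fun i l => (v κ i l : ℝ) / lam κ i with hw
  obtain ⟨hwy, x, hx1, hx2⟩ := hcr2 w (by
    intro i l
    have e1 : w i l - cr i l = (w i l - κ.dir g i l) + (κ.dir g i l - cr i l) := by ring
    rw [e1]
    calc _ ≤ |w i l - κ.dir g i l| + |κ.dir g i l - cr i l| := abs_add_le _ _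
      _ ≤ η / 2 + 1 / g := add_le_add (hsel2 κ i l) (hκ2 i l)
      _ ≤ η := by linarith)
  -- p-adic data
  have hpv : ∀ (p : ℕ) (hp : Fact p.Prime), p ≤ p0 →
      (∀ i l, (p : ℤ_[p]) ^ m ∣ (v κ i l : ℤ_[p]) - u p hp i l) ∧
      ∃ x : Fin (r + 1) → ℤ_[p], (∀ i, (p : ℤ_[p]) ^ m ∣ x i - 1) ∧
        ∑ i, ((bb F (v κ) a i : ℤ) : ℤ_[p]) * x i ^ k = 0 := by
    intro p hp hpp
    obtain ⟨h1, x', h2, h3⟩ := hcp p hp hpp (fun i l => (v κ i l : ℤ_[p])) (by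
      intro i l
      have e1 : (v κ i l : ℤ_[p]) - cp p hp i l =
          (((v κ i l - κ.res p i l : ℤ)) : ℤ_[p]) + (((κ.res p i l : ℤ) : ℤ_[p]) - cp p hp i l) := by
        push_cast; ring
      rw [e1]
      exact dvd_add ((padic_pow_dvd_int _ E).mpr (hsel3 κ p hp.out hpp i l)) (hκ1 p hp hpp i l))
    refine ⟨h1, x', h2, ?_⟩
    rw [← h3]
    apply Finset.sum_congr rfl
    intro i _
    rw [aeval_intCast]
    unfold bb
    push_cast
    ring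
  have hU : ∀ (p : ℕ) (hp : Fact p.Prime), ∃ U : Fin (r + 1) → ℤ_[p],
      PrimZ p k (r + 1) (bb F (v κ) a) U ∧ (p ≤ m → ∀ i, (p : ℤ_[p]) ^ m ∣ U i - 1) := by
    intro p hp
    by_cases hpp : p ≤ p0
    · obtain ⟨-, x', h2, h3⟩ := hpv p hp hpp
      refine ⟨x', ⟨⟨0, ?_⟩, h3⟩, fun _ => h2⟩
      have h4 : (p : ℤ_[p]) ∣ x' 0 - 1 := (dvd_pow_self _ (by omega)).trans (h2 0)
      rw [← PadicInt.norm_lt_one_iff_dvd] at h4
      rw [PadicInt.isUnit_iff]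
      have h5 : x' 0 = 1 + (x' 0 - 1) := by ring
      rw [h5]
      have h6 : ‖(1 : ℤ_[p]) + (x' 0 - 1)‖ = max ‖(1 : ℤ_[p])‖ ‖x' 0 - 1‖ := by
        apply PadicInt.norm_add_eq_max_of_ne
        rw [norm_one]; exact h4.ne'
      rw [h6, norm_one]
      exact max_eq_left h4.le
    · have hsol : Sol ℚ_[p] k (r + 1) (bb F (v κ) a) := by
        apply sol_large (by omega) (by omega) a (fun i => aeval (v κ i) (F i)) p
        · intro hdvd
          have := Nat.le_of_dvd (by omega) hdvd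
          omega
        · intro o o' hoo h1 h2
          by_cases hpH : p ≤ H
          · exact hpair p hp.out (by omega) hpH o o' hoo h1 h2
          · have h3 := Int.le_of_dvd (abs_pos.mpr (ha0 o)) ((dvd_abs _ _).mpr h1)
            have h4 := habox o
            omega
        · intro o o' hoo h1
          exact hsel5 κ p hp.out (by omega) o o' hoo h1
      obtain ⟨z, hz0, hz⟩ := hsol
      obtain ⟨U, ⟨o, ho⟩, hU⟩ := primitive_solution (p := p) k r (by omega) (bb F (v κ) a) z hz0 hz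
      exact ⟨U, ⟨⟨o, by rw [ho]; exact isUnit_one⟩, hU⟩, fun h => absurd (h.trans hmp) hpp⟩
  choose U hU1 hU2 using hU
  refine ⟨?_, ?_, ?_⟩
  · rw [mem_boxA]
    intro i
    unfold bb
    rw [abs_mul]
    have h1 := habox i
    have h2 := hC κ i
    push_cast
    rw [mul_comm (C : ℤ)]
    gcongr
  · intro p hp
    exact sol_of_unit_zero p _ (U p hp) (hU1 p hp).1 (hU1 p hp).2
  · have hx0 : ∀ i, 0 < x i := by
      intro i
      have h1 := abs_le.mp (hx1 i)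
      have h2 : 1 / (8 * (m : ℝ)) ≤ 1 / 8 := by
        apply one_div_le_one_div_of_le (by norm_num); linarith
      linarith [h1.1]
    have hx98 : ∀ i, x i ≤ 2 := by
      intro i
      have h1 := abs_le.mp (hx1 i)
      have h2 : 1 / (8 * (m : ℝ)) ≤ 1 / 8 := by
        apply one_div_le_one_div_of_le (by norm_num); linarith
      linarith [h1.2]
    set ζ : Fin (r + 1) → ℝ := fun i => x i / lam κ i with hζ
    have hζ0 : ∀ i, 0 < ζ i := fun i => div_pos (hx0 i) (hsel1 κ i)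
    obtain ⟨i0, hi0⟩ := Finite.exists_max ζ
    set μ := ζ i0 with hμ
    have hμ0 : 0 < μ := hζ0 i0
    have hμΛ : μ ≤ 2 * Λ := by
      rw [hμ, hζ]
      simp only
      calc x i0 / lam κ i0 = x i0 * (1 / lam κ i0) := by ring
        _ ≤ 2 * Λ := by
            have := hΛ κ i0
            have h3 := hx98 i0
            have h4 : 0 < 1 / lam κ i0 := by have := hsel1 κ i0; positivity
            gcongr
    refine ⟨fun i => ζ i / μ, U, ⟨?_, ⟨i0, ?_⟩, ?_⟩, fun p hp _ => hU1 p hp, ?_⟩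
    · intro o
      simp only
      rw [abs_div, abs_of_pos (hζ0 o), abs_of_pos hμ0, div_le_one hμ0]
      exact hi0 o
    · simp only
      rw [← hμ, div_self hμ0.ne', abs_one]
    · simp only
      have h1 : ∀ o, ((bb F (v κ) a o : ℤ) : ℝ) * (ζ o / μ) ^ k =
          (H / μ ^ k) * ((a o : ℝ) / H * aeval (w o) (F o) * x o ^ k) := by
        intro o
        have h2 : ((aeval (v κ o) (F o) : ℤ) : ℝ) = lam κ o ^ k * aeval (w o) (F o) := by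
          rw [← aeval_intCast, ← aeval_scale (hA.hom o)]
          congr 2
          funext l
          rw [hw]
          have := (hsel1 κ o).ne'
          field_simp
        unfold bb
        push_cast
        rw [h2, hζ]
        have h3 := (hsel1 κ o).ne'
        simp only [div_pow]
        field_simp
      rw [Finset.sum_congr rfl (fun o _ => h1 o), ← Finset.mul_sum, hx2, mul_zero]
    · intro happ
      apply hna
      refine transfer hA hk m m2 H (C * H) hm hm2a hm2b a (v κ) (lam κ) (hsel1 κ) (hsel4 κ) y hy1 u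
        hwy x hx1 μ hμ0 (fun i => ζ i / μ) ?_ ⟨i0, ?_⟩ V (hV κ) ?_ U ?_ ?_ hHV happ
      · intro i
        rw [mul_div_cancel₀ _ hμ0.ne']
      · rw [← hμ, div_self hμ0.ne', abs_one]
      · have h5 : (4 * m * Λ * V : ℝ) ≤ m2 := by exact_mod_cast hm2c
        calc 2 * (m : ℝ) * μ * V ≤ 2 * m * (2 * Λ) * V := by gcongr
          _ = 4 * m * Λ * V := by ring
          _ ≤ m2 := h5
      · intro p hp hpm
        exact hU2 p hp hpm
      · intro p hp hpm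
        exact (hpv p hp (hpm.trans hmp)).1

end Pool.Agent.H888.SF
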