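import Mathlib

namespace Pool.Agent.H888.SF

open Finset

theorem sum_single_append {X : Type*} {N N' : ℕ} (A : Fin N → X) (B : Fin N' → X) :
    ∑ i, Finsupp.single (Fin.append A B i) (1 : ℤ) =
      (∑ i, Finsupp.single (A i) (1 : ℤ)) + ∑ i, Finsupp.single (B i) (1 : ℤ) := by
  rw [Fin.sum_univ_add]
  simp only [Fin.append_left, Fin.append_right]

theorem sum_single_const {X : Type*} (N : ℕ) (x : X) :
    ∑ _i : Fin N, Finsupp.single x (1 : ℤ) = Finsupp.single x (N : ℤ) := by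
  rw [Finset.sum_const, Finset.card_univ, Fintype.card_fin, Finsupp.smul_single, nsmul_eq_mul, mul_one]

theorem exists_diff {X : Type*} (b : X) (w : X →₀ ℤ) :
    ∃ N₀ : ℕ, ∀ N, N₀ ≤ N → ∃ A B : Fin N → X,
      w = (∑ i, Finsupp.single (A i) (1 : ℤ)) - (∑ i, Finsupp.single (B i) (1 : ℤ)) +
        Finsupp.single b (w.sum (fun _ c => c)) := by
  classical
  induction w using Finsupp.induction_linear with
  | zero =>
    refine ⟨0, fun N _ => ⟨fun _ => b, fun _ => b, ?_⟩⟩
    simp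
  | add w₁ w₂ h₁ h₂ =>
    obtain ⟨N₁, h₁⟩ := h₁
    obtain ⟨N₂, h₂⟩ := h₂
    refine ⟨N₁ + N₂, fun N hN => ?_⟩
    obtain ⟨M, rfl⟩ : ∃ M, N = N₁ + M := ⟨N - N₁, by omega⟩
    obtain ⟨A₁, B₁, e₁⟩ := h₁ N₁ le_rfl
    obtain ⟨A₂, B₂, e₂⟩ := h₂ M (by omega)
    refine ⟨Fin.append A₁ A₂, Fin.append B₁ B₂, ?_⟩
    rw [sum_single_append, sum_single_append, Finsupp.sum_add_index' (fun _ => rfl) (fun _ _ _ => rfl),
      Finsupp.single_add]
    nth_rewrite 1 [e₁]
    nth_rewrite 1 [e₂]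
    abel
  | single x c =>
    have hs : (Finsupp.single x c).sum (fun _ c => c) = c := Finsupp.sum_single_index rfl
    rw [hs]
    refine ⟨c.natAbs, fun N hN => ?_⟩
    obtain ⟨M, rfl⟩ : ∃ M, N = c.natAbs + M := ⟨N - c.natAbs, by omega⟩
    rcases le_total 0 c with hc | hc
    · refine ⟨Fin.append (fun _ : Fin c.natAbs => x) (fun _ : Fin M => b),
        Fin.append (fun _ : Fin c.natAbs => b) (fun _ : Fin M => b), ?_⟩
      rw [sum_single_append, sum_single_append]
      simp only [sum_single_const]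
      have h1 : ((c.natAbs : ℕ) : ℤ) = c := Int.natAbs_of_nonneg hc
      rw [h1]
      abel
    · refine ⟨Fin.append (fun _ : Fin c.natAbs => b) (fun _ : Fin M => b),
        Fin.append (fun _ : Fin c.natAbs => x) (fun _ : Fin M => b), ?_⟩
      rw [sum_single_append, sum_single_append]
      simp only [sum_single_const]
      have h1 : ((c.natAbs : ℕ) : ℤ) = -c := by omega
      rw [h1, Finsupp.single_neg, Finsupp.single_neg]
      abel

end Pool.Agent.H888.SF
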