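import Mathlib

/-!
# Sums of forms in disjoint blocks of variables: definitions and statements of the lemmas
-/

namespace Pool.Agent.H888.SF

open Finset MvPolynomial

/-- Vectors consisting of `s` blocks, the block `i` has `n i` coordinates in `R`. -/
abbrev Blk {s : ℕ} (n : Fin s → ℕ) (R : Type*) := ∀ i : Fin s, Fin (n i) → R

/-- Smooth form: the partial derivatives have no nontrivial common zero over fields of
characteristic zero. -/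
def SmoothForm {m : ℕ} (F : MvPolynomial (Fin m) ℤ) : Prop :=
  ∀ (K : Type) [Field K] [CharZero K] (x : Fin m → K), (∀ l, aeval x (pderiv l F) = 0) → x = 0

/-- `∑ i, a i * F i (y i)`. -/
noncomputable def val {s : ℕ} {n : Fin s → ℕ} (F : ∀ i, MvPolynomial (Fin (n i)) ℤ) {R : Type*}
    [CommRing R] (a : Fin s → R) (y : Blk n R) : R := ∑ i, a i * aeval (y i) (F i)

/-- Admissible data: smooth forms of degree `k` in `n i ≥ 1` variables. -/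
structure Adm (k s : ℕ) (n : Fin s → ℕ) (F : ∀ i, MvPolynomial (Fin (n i)) ℤ) : Prop where
  npos : ∀ i, 1 ≤ n i
  hom : ∀ i, (F i).IsHomogeneous k
  smooth : ∀ i, SmoothForm (F i)

/-- **(T1)** `p`-adic perturbation: every `p`-adic zero `u ≠ 0` of `∑ a_i F_i` (all `a_i ≠ 0`) can be moved
a little to a zero at which some `F_j` does not vanish.

Proof. If some `F_j(u_j) ≠ 0` take `u' = u`. Otherwise all `F_i(u_i) = 0`. Choose `i0` with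
`u_{i0} ≠ 0`; by smoothness (over `ℚ_[p]`) some `∂_l F_{i0}(u_{i0}) ≠ 0`. Choose `j ≠ i0` and
`y0 : Fin (n j) → ℤ_[p]` with `F_j(y0) ≠ 0` (`F_j ≠ 0` because otherwise all partials vanish at the vector
`1 ≠ 0`, contradicting smoothness; then `MvPolynomial.funext` over the infinite domain `ℤ_[p]`, or over
`ℤ`). The one-variable polynomial `g(t) = F_j(u_j + t (y0 - u_j))` is nonzero (`g 1 ≠ 0`), `g 0 = 0`, so
`g(p^e) ≠ 0` for all large `e`, and `‖g(p^e)‖ → 0`. Let `h(τ) = a_{i0} F_{i0}(u_{i0} + p^N τ e_l) +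
a_j g(p^e)`; `h(0) = a_j g(p^e)`, `h'(0) = a_{i0} p^N ∂_l F_{i0}(u_{i0}) ≠ 0`. For `e` large
`‖h(0)‖ < ‖h'(0)‖²` and Hensel (`hensels_lemma`) gives a zero `τ ∈ ℤ_[p]` of `h`. Put
`u'_{i0} = u_{i0} + p^N τ e_l`, `u'_j = u_j + p^e (y0 - u_j)`, `u'_i = u_i` otherwise (`e ≥ N`). -/
def S_pertP : Prop := ∀ (p : ℕ) (_ : Fact p.Prime) (k s : ℕ) (n : Fin s → ℕ)
  (F : ∀ i, MvPolynomial (Fin (n i)) ℤ), 2 ≤ s → Adm k s n F →
  ∀ (a : Fin s → ℤ_[p]) (u : Blk n ℤ_[p]) (N : ℕ), (∀ i, a i ≠ 0) → u ≠ 0 → val F a u = 0 →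
    ∃ u' : Blk n ℤ_[p], (∀ i l, (p : ℤ_[p]) ^ N ∣ u' i l - u i l) ∧ val F a u' = 0 ∧
      ∃ j, aeval (u' j) (F j) ≠ 0

/-- **(T2)** uniform `p`-adic recipes.

Proof. The set `K` of all `(a, u) ∈ ℤ_[p]^s × Blk n ℤ_[p]` with `¬ p^(M+1) ∣ a_i` for all `i`, some
`u_{il}` a unit and `val F a u = 0` is compact (closed in a compact space; `‖a_i‖ ≥ p^(-M)`,
`‖u_{il}‖ = 1` for some `(i,l)`, continuity of polynomials). Let `(a⁰, u⁰) ∈ K`. By (T1) with `N` there is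
`c ≡ u⁰ mod p^N` with `val F a⁰ c = 0` and `b'_j := a⁰_j F_j(c_j) ≠ 0`. Choose `E ≥ N` with
`p^(-E) < p^(-2N) ‖k b'_j‖²` (`k ≥ 1`). Let `(a,u) ∈ K` with `a ≡ a⁰ mod p^E`, `u ≡ u⁰ mod p^N` (an open
neighbourhood), and let `v ≡ c mod p^E`. With `b_i = a_i F_i(v_i)` we have `b_i ≡ a⁰_i F_i(c_i) mod p^E`, so
`‖b_j‖ = ‖b'_j‖` and `p^E ∣ ∑ b_i`. Hensel for `f(τ) = ∑_{i ≠ j} b_i + b_j (1 + p^N τ)^k` at `τ = 0`
(`f(0) = ∑ b_i`, `f'(0) = k b_j p^N`, `‖f(0)‖ ≤ p^(-E) < ‖f'(0)‖²`) gives `x_j = 1 + p^N τ`, `x_i = 1`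
otherwise. A finite subcover gives the maximal `E` (a larger `E` is harmless). -/
def S_recP : Prop := ∀ (p : ℕ) (_ : Fact p.Prime) (k s : ℕ) (n : Fin s → ℕ)
  (F : ∀ i, MvPolynomial (Fin (n i)) ℤ), 1 ≤ k → 2 ≤ s → Adm k s n F → ∀ (M N : ℕ),
  ∃ E : ℕ, ∀ (a : Fin s → ℤ_[p]) (u : Blk n ℤ_[p]), (∀ i, ¬ (p : ℤ_[p]) ^ (M + 1) ∣ a i) →
    (∃ i l, IsUnit (u i l)) → val F a u = 0 →
    ∃ c : Blk n ℤ_[p], ∀ v : Blk n ℤ_[p], (∀ i l, (p : ℤ_[p]) ^ E ∣ v i l - c i l) →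
      (∀ i l, (p : ℤ_[p]) ^ N ∣ v i l - u i l) ∧
      ∃ x : Fin s → ℤ_[p], (∀ i, (p : ℤ_[p]) ^ N ∣ x i - 1) ∧
        ∑ i, a i * aeval (v i) (F i) * x i ^ k = 0

/-- **(T3)** real perturbation: as (T1) over `ℝ`.

Proof. If some `F_j(y_j) ≠ 0` take `y' = y`. Otherwise choose `i0`, `l` with `∂_l F_{i0}(y_{i0}) ≠ 0`, `j ≠ i0`
and `y0` with `F_j(y0) ≠ 0`; `g(t) = F_j(y_j + t (y0 - y_j))` is a nonzero polynomial, so `g(t) ≠ 0` for all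
small `t > 0`, and `g(t) → 0`. `h(τ) = a_{i0} F_{i0}(y_{i0} + τ e_l)` is a polynomial with `h(0) = 0`,
`h'(0) ≠ 0`, so it takes positive and negative values on `(-δ, δ)`; by the intermediate value theorem it
takes the value `-a_j g(t)` there for all small `t`. -/
def S_pertR : Prop := ∀ (k s : ℕ) (n : Fin s → ℕ)
  (F : ∀ i, MvPolynomial (Fin (n i)) ℤ), 2 ≤ s → Adm k s n F →
  ∀ (a : Fin s → ℝ) (y : Blk n ℝ) (δ : ℝ), 0 < δ → (∀ i, a i ≠ 0) → y ≠ 0 → val F a y = 0 →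
    ∃ y' : Blk n ℝ, (∀ i l, |y' i l - y i l| ≤ δ) ∧ val F a y' = 0 ∧
      ∃ j, aeval (y' j) (F j) ≠ 0

/-- **(T4)** uniform real recipes.

Proof. Wlog `δ ≤ 1`. The set `K` of the `(a, y)` with `ρ ≤ |a_i| ≤ 1`, `|y_{il}| ≤ 1`, some `|y_{il}| = 1` and
`val F a y = 0` is compact. Let `(a⁰, y⁰) ∈ K`. By (T3) with `δ/4` there is `c` with `|c - y⁰| ≤ δ/4`,
`val F a⁰ c = 0` and `F_j(c_j) ≠ 0`. For `(a, y)` close to `(a⁰, y⁰)` and `w` close to `c` the numbers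
`b_i = a_i F_i(w_i)` are close to `a⁰_i F_i(c_i)`, so `S = ∑ b_i` is as small as we like and `b_j` stays away
from `0`: `|S / b_j| ≤ δ`. Put `x_j = (1 - S/b_j)^(1/k)`, `x_i = 1` otherwise; then
`∑ b_i x_i^k = ∑ b_i - b_j + b_j (1 - S / b_j) = 0` and `|x_j - 1| ≤ |S / b_j| ≤ δ` (`|x - 1| ≤ |x^k - 1|` for
`x ≥ 0`). Also `|w - y| ≤ |w - c| + |c - y⁰| + |y⁰ - y| ≤ δ`. Finite subcover. -/
def S_recR : Prop := ∀ (k s : ℕ) (n : Fin s → ℕ)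
  (F : ∀ i, MvPolynomial (Fin (n i)) ℤ), 1 ≤ k → 2 ≤ s → Adm k s n F → ∀ (ρ δ : ℝ), 0 < ρ → 0 < δ →
  ∃ η : ℝ, 0 < η ∧ ∀ (a : Fin s → ℝ) (y : Blk n ℝ), (∀ i, ρ ≤ |a i| ∧ |a i| ≤ 1) →
    (∀ i l, |y i l| ≤ 1) → (∃ i l, |y i l| = 1) → val F a y = 0 →
    ∃ c : Blk n ℝ, (∀ i l, |c i l| ≤ 2) ∧ ∀ w : Blk n ℝ, (∀ i l, |w i l - c i l| ≤ η) →
      (∀ i l, |w i l - y i l| ≤ δ) ∧
      ∃ x : Fin s → ℝ, (∀ i, |x i - 1| ≤ δ) ∧ ∑ i, a i * aeval (w i) (F i) * x i ^ k = 0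

/-- **(T5)** selection of the integral vectors.

Proof. Let `q = ∏_{p ≤ p0 prime} p^E`. Choose the `v_i` one after the other (induction on the number of
blocks, or strong recursion on `Fin s`). Given the `v_j`, `j < i`, let `P` be the finite set of the primes
`> p0` dividing some `F_j(v_j) ≠ 0`, `j < i`, together with one more prime `> p0`. By the Chinese remainder
theorem there is `v⁰` with `v⁰ ≡ c p i mod p^E` for the primes `p ≤ p0` and `v⁰ ≡ u0_i mod p` for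
`p ∈ P`. Let `Q = q ∏_{p ∈ P} p`, `λ_i = Q/η + 1` and `v_i = v⁰ + Q z` with
`z_l = round ((λ_i y_{il} - v⁰_l) / Q)`; then `|v_{il} - λ_i y_{il}| ≤ Q`, so `|v_{il}/λ_i - y_{il}| ≤ η`. For
`p ∈ P` we have `F_i(v_i) ≡ F_i(u0_i) mod p`, which is not divisible by `p`, since
`0 < |F_i(u0_i)| ≤ p0 < p`. So `F_i(v_i) ≠ 0`, and no prime `> p0` divides `F_i(v_i)` and `F_j(v_j)`, `j < i`. -/
def S_sel : Prop := ∀ (s : ℕ) (n : Fin s → ℕ) (F : ∀ i, MvPolynomial (Fin (n i)) ℤ)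
  (u0 : Blk n ℤ) (p0 : ℕ), (∀ i, aeval (u0 i) (F i) ≠ (0 : ℤ)) →
  (∀ i, |aeval (u0 i) (F i)| ≤ (p0 : ℤ)) → ∀ (E : ℕ) (c : ℕ → Blk n ℤ) (y : Blk n ℝ) (η : ℝ), 0 < η →
  ∃ (v : Blk n ℤ) (lam : Fin s → ℝ), (∀ i, 0 < lam i) ∧
    (∀ i l, |(v i l : ℝ) / lam i - y i l| ≤ η) ∧
    (∀ p : ℕ, p.Prime → p ≤ p0 → ∀ i l, (p : ℤ) ^ E ∣ v i l - c p i l) ∧
    (∀ i, aeval (v i) (F i) ≠ (0 : ℤ)) ∧
    ∀ p : ℕ, p.Prime → p0 < p → ∀ i j, i ≠ j → (p : ℤ) ∣ aeval (v i) (F i) →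
      ¬ (p : ℤ) ∣ aeval (v j) (F j)

end Pool.Agent.H888.SF
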