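import Pool.Agent.H888.SF.Defs

/-!
# `p`-adic perturbation of a zero
-/

set_option autoImplicit false

namespace Pool.Agent.H888.SF

open Finset MvPolynomial

namespace T1

variable {R : Type} [CommRing R]

/-- evaluation of a polynomial along a polynomial curve -/
theorem eval_curve {m : ℕ} (F : MvPolynomial (Fin m) ℤ) (q : Fin m → Polynomial R) (t : R) :
    (aeval q F).eval t = aeval (fun l => (q l).eval t) F := by
  have h := comp_aeval_apply (R := ℤ) (f := q) ((Polynomial.evalRingHom t).toIntAlgHom) F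
  exact h

/-- derivative along a line parallel to a coordinate axis -/
theorem deriv_curve {m : ℕ} (F : MvPolynomial (Fin m) ℤ) (u : Fin m → R) (l : Fin m) (c : R) :
    Polynomial.derivative (aeval (fun l' => Polynomial.C (u l') +
      if l' = l then Polynomial.C c * Polynomial.X else 0) F) =
    aeval (fun l' => Polynomial.C (u l') +
      if l' = l then Polynomial.C c * Polynomial.X else 0) (pderiv l F) * Polynomial.C c := by
  induction F using MvPolynomial.induction_on with
  | C a =>
    rw [pderiv_C, map_zero, zero_mul, aeval_C]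
    have : algebraMap ℤ (Polynomial R) a = Polynomial.C (a : R) := by
      rw [eq_intCast, Polynomial.C_eq_intCast]
    rw [this, Polynomial.derivative_C]
  | add p q hp hq =>
    rw [map_add, map_add, map_add, map_add, hp, hq, add_mul]
  | mul_X p i hp =>
    have e : ∀ q : Fin m → Polynomial R, aeval q (pderiv l (p * X i)) =
        aeval q p * aeval q (Pi.single (M := fun _ => MvPolynomial (Fin m) ℤ) l 1 i) +
          q i * aeval q (pderiv l p) := by
      intro q
      rw [Derivation.leibniz, pderiv_X, smul_eq_mul, smul_eq_mul, map_add, map_mul, map_mul, aeval_X]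
    rw [map_mul, Polynomial.derivative_mul, hp, aeval_X, e]
    by_cases h : i = l
    · subst h
      rw [Pi.single_eq_same, map_one, if_pos rfl, Polynomial.derivative_add,
        Polynomial.derivative_C, Polynomial.derivative_C_mul_X]
      ring
    · rw [Pi.single_eq_of_ne h, map_zero, if_neg h, add_zero, Polynomial.derivative_C]
      ring

theorem aeval_int {m : ℕ} [CharZero R] (F : MvPolynomial (Fin m) ℤ) (y : Fin m → ℤ)
    (h : eval y F ≠ 0) : aeval (fun l => (y l : R)) F ≠ 0 := by
  have e : aeval (fun l => (y l : R)) F = ((eval y F : ℤ) : R) := by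
    have h1 := comp_aeval_apply (R := ℤ) (f := y) ((Int.castRingHom R).toIntAlgHom) F
    have h2 : aeval y F = eval y F := by
      rw [MvPolynomial.aeval_def, MvPolynomial.eval]
      rfl
    rw [h2] at h1
    exact h1.symm
  rw [e]
  exact_mod_cast h

/-- smooth forms are nonzero -/
theorem exists_ne {m : ℕ} (hm : 1 ≤ m) {F : MvPolynomial (Fin m) ℤ} (hF : SmoothForm F) :
    ∃ y : Fin m → ℤ, eval y F ≠ 0 := by
  by_contra hcon
  push Not at hcon
  have h0 : F = 0 := MvPolynomial.funext fun y => by rw [hcon y, map_zero]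
  have h1 := hF ℚ (fun _ => 1) (fun l => by rw [h0, map_zero, map_zero])
  have h2 := congrFun h1 ⟨0, by omega⟩
  exact one_ne_zero h2

end T1

open T1

theorem pertP : S_pertP := by
  intro p hp k s n F hs hA a u N ha hu hval
  by_cases hex : ∃ j, aeval (u j) (F j) ≠ 0
  · exact ⟨u, fun i l => by rw [sub_self]; exact dvd_zero _, hval, hex⟩
  push Not at hex
  -- the index `i0`
  obtain ⟨i0, hi0⟩ : ∃ i0, u i0 ≠ 0 := by
    by_contra hcon
    push Not at hcon
    exact hu (funext hcon)
  obtain ⟨l, hl⟩ : ∃ l, aeval (u i0) (pderiv l (F i0)) ≠ 0 := by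
    by_contra hcon
    push Not at hcon
    apply hi0
    have h1 := hA.smooth i0 ℚ_[p] (fun l => (u i0 l : ℚ_[p])) (fun l => by
      have h2 := comp_aeval_apply (R := ℤ) (f := u i0)
        ((PadicInt.Coe.ringHom (p := p)).toIntAlgHom) (pderiv l (F i0))
      rw [hcon l, map_zero] at h2
      exact h2.symm)
    funext l
    have h3 := congrFun h1 l
    have h4 : (u i0 l : ℚ_[p]) = 0 := h3
    exact PadicInt.ext h4
  -- the index `j`
  obtain ⟨j, hj⟩ : ∃ j, j ≠ i0 := by
    have : Nontrivial (Fin s) := Fin.nontrivial_iff_two_le.2 hs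
    exact exists_ne i0
  obtain ⟨y0, hy0⟩ := T1.exists_ne (hA.npos j) (hA.smooth j)
  set g : Polynomial ℤ_[p] := aeval (fun l => Polynomial.C (u j l) +
    Polynomial.X * Polynomial.C ((y0 l : ℤ_[p]) - u j l)) (F j) with hg
  have hgt : ∀ t : ℤ_[p], g.eval t = aeval (fun l => u j l + t * ((y0 l : ℤ_[p]) - u j l)) (F j) := by
    intro t
    rw [hg, eval_curve]
    congr 2
    funext l
    rw [Polynomial.eval_add, Polynomial.eval_mul, Polynomial.eval_C, Polynomial.eval_C,
      Polynomial.eval_X]
  have hg0 : g.eval 0 = 0 := by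
    rw [hgt]
    have : (fun l => u j l + 0 * ((y0 l : ℤ_[p]) - u j l)) = u j := by
      funext l
      rw [zero_mul, add_zero]
    rw [this]
    exact hex j
  have hg1 : g.eval 1 ≠ 0 := by
    rw [hgt]
    have : (fun l => u j l + 1 * ((y0 l : ℤ_[p]) - u j l)) = fun l => (y0 l : ℤ_[p]) := by
      funext l
      ring
    rw [this]
    exact aeval_int _ _ hy0
  have hgne : g ≠ 0 := by
    intro h
    rw [h, Polynomial.eval_zero] at hg1
    exact hg1 rfl
  have hpn : ‖(p : ℤ_[p])‖ < 1 := by
    rw [PadicInt.norm_p]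
    exact inv_lt_one_of_one_lt₀ (by exact_mod_cast hp.out.one_lt)
  have hp0 : (p : ℤ_[p]) ≠ 0 := by exact_mod_cast hp.out.ne_zero
  -- the choice of `e`
  have hε : 0 < ‖a i0 * (p : ℤ_[p]) ^ N * aeval (u i0) (pderiv l (F i0))‖ ^ 2 := by
    apply pow_pos
    exact norm_pos_iff.2 (mul_ne_zero (mul_ne_zero (ha i0) (pow_ne_zero _ hp0)) hl)
  have hev1 : ∀ᶠ e : ℕ in Filter.atTop, ‖(p : ℤ_[p])‖ ^ e <
      ‖a i0 * (p : ℤ_[p]) ^ N * aeval (u i0) (pderiv l (F i0))‖ ^ 2 :=
    (tendsto_pow_atTop_nhds_zero_of_lt_one (norm_nonneg _) hpn).eventually (gt_mem_nhds hε)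
  have hev2 : ∀ᶠ e : ℕ in Filter.atTop, g.eval ((p : ℤ_[p]) ^ e) ≠ 0 := by
    have hinj : Function.Injective fun e : ℕ => (p : ℤ_[p]) ^ e := by
      intro e e' h
      have h1 : ((p ^ e : ℕ) : ℤ_[p]) = ((p ^ e' : ℕ) : ℤ_[p]) := by
        push_cast
        exact h
      exact Nat.pow_right_injective hp.out.two_le (Nat.cast_injective h1)
    have hfin : {e : ℕ | (p : ℤ_[p]) ^ e ∈ {x | Polynomial.IsRoot g x}}.Finite :=
      (Polynomial.finite_setOfPred_isRoot hgne).preimage hinj.injOn
    have h2 := hfin.eventually_cofinite_notMem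
    rw [Nat.cofinite_eq_atTop] at h2
    filter_upwards [h2] with e he h3
    exact he h3
  obtain ⟨e, he1, he2, heN⟩ := (hev1.and (hev2.and (Filter.eventually_ge_atTop N))).exists
  have hgdvd : (p : ℤ_[p]) ^ e ∣ g.eval ((p : ℤ_[p]) ^ e) := by
    have := Polynomial.sub_dvd_eval_sub ((p : ℤ_[p]) ^ e) 0 g
    rw [hg0, sub_zero, sub_zero] at this
    exact this
  -- Hensel
  set q : Fin (n i0) → Polynomial ℤ_[p] := fun l' => Polynomial.C (u i0 l') +
      (if l' = l then Polynomial.C ((p : ℤ_[p]) ^ N) * Polynomial.X else 0) with hq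
  set h : Polynomial ℤ_[p] := Polynomial.C (a i0) * aeval q (F i0) +
    Polynomial.C (a j * g.eval ((p : ℤ_[p]) ^ e)) with hh
  have hq0 : (fun l' => (q l').eval 0) = u i0 := by
    funext l'
    simp only [hq, Polynomial.eval_add, Polynomial.eval_C]
    split_ifs
    · simp
    · simp
  have hh0 : h.eval 0 = a j * g.eval ((p : ℤ_[p]) ^ e) := by
    rw [hh, Polynomial.eval_add, Polynomial.eval_mul, Polynomial.eval_C, Polynomial.eval_C,
      eval_curve, hq0, hex i0, mul_zero, zero_add]
  have hd0 : (Polynomial.derivative h).eval 0 =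
      a i0 * (p : ℤ_[p]) ^ N * aeval (u i0) (pderiv l (F i0)) := by
    rw [hh, Polynomial.derivative_add, Polynomial.derivative_C, add_zero,
      Polynomial.derivative_C_mul, hq, deriv_curve, ← hq, Polynomial.eval_mul, Polynomial.eval_C,
      Polynomial.eval_mul, Polynomial.eval_C, eval_curve, hq0]
    ring
  have hnorm : ‖Polynomial.aeval (0 : ℤ_[p]) h‖ < ‖Polynomial.aeval (0 : ℤ_[p])
      (Polynomial.derivative h)‖ ^ 2 := by
    rw [Polynomial.coe_aeval_eq_eval, hh0, hd0]
    refine lt_of_le_of_lt ?_ he1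
    obtain ⟨r, hr⟩ := hgdvd
    rw [hr, norm_mul, norm_mul, norm_pow]
    calc ‖a j‖ * (‖(p : ℤ_[p])‖ ^ e * ‖r‖) ≤ 1 * (‖(p : ℤ_[p])‖ ^ e * 1) := by
          apply mul_le_mul (PadicInt.norm_le_one _) _ (by positivity) zero_le_one
          exact mul_le_mul_of_nonneg_left (PadicInt.norm_le_one _) (by positivity)
      _ = ‖(p : ℤ_[p])‖ ^ e := by ring
  obtain ⟨τ, hτ, -⟩ := hensels_lemma hnorm
  rw [Polynomial.coe_aeval_eq_eval] at hτ
  have hτ2 : a i0 * aeval (fun l' => (q l').eval τ) (F i0) + a j * g.eval ((p : ℤ_[p]) ^ e) = 0 := by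
    rw [hh, Polynomial.eval_add, Polynomial.eval_mul, Polynomial.eval_C, Polynomial.eval_C,
      eval_curve] at hτ
    exact hτ
  -- the new point
  let u1 : Blk n ℤ_[p] := Function.update u i0 (fun l' => (q l').eval τ)
  let u2 : Blk n ℤ_[p] := Function.update u1 j
    (fun l' => u j l' + (p : ℤ_[p]) ^ e * ((y0 l' : ℤ_[p]) - u j l'))
  have e1 : u2 j = fun l' => u j l' + (p : ℤ_[p]) ^ e * ((y0 l' : ℤ_[p]) - u j l') :=
    Function.update_self _ _ _
  have e2 : u2 i0 = fun l' => (q l').eval τ := by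
    show Function.update u1 j _ i0 = _
    rw [Function.update_of_ne hj.symm]
    exact Function.update_self _ _ _
  have e3 : ∀ i, i ≠ i0 → i ≠ j → u2 i = u i := by
    intro i h1 h2
    show Function.update u1 j _ i = _
    rw [Function.update_of_ne h2]
    exact Function.update_of_ne h1 _ _
  refine ⟨u2, ?_, ?_, j, ?_⟩
  · intro i l'
    by_cases h1 : i = j
    · subst h1
      rw [e1]
      have : u i l' + (p : ℤ_[p]) ^ e * ((y0 l' : ℤ_[p]) - u i l') - u i l' =
          (p : ℤ_[p]) ^ e * ((y0 l' : ℤ_[p]) - u i l') := by ring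
      rw [this]
      exact (pow_dvd_pow _ heN).mul_right _
    · by_cases h2 : i = i0
      · subst h2
        rw [e2]
        simp only [hq, Polynomial.eval_add, Polynomial.eval_C, add_sub_cancel_left]
        split_ifs
        · rw [Polynomial.eval_mul, Polynomial.eval_C, Polynomial.eval_X]
          exact dvd_mul_right _ _
        · rw [Polynomial.eval_zero]
          exact dvd_zero _
      · rw [e3 i h2 h1, sub_self]
        exact dvd_zero _
  · unfold val
    rw [Finset.sum_eq_add i0 j hj.symm]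
    · rw [e1, e2, ← hgt]
      exact hτ2
    · intro c _ hc
      rw [e3 c hc.1 hc.2, hex c, mul_zero]
    · intro h1
      exact absurd (Finset.mem_univ _) h1
    · intro h1
      exact absurd (Finset.mem_univ _) h1
  · rw [e1, ← hgt]
    exact he2

end Pool.Agent.H888.SF
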