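import Pool.Agent.H888.SF.Defs

/-!
# (T2) uniform p-adic recipes, by compactness from (T1)
-/

set_option autoImplicit false

namespace Pool.Agent.H888.SF

open Finset MvPolynomial Topology Filter

namespace T2

theorem norm_p_lt (p : ℕ) [hp : Fact p.Prime] : ‖(p : ℤ_[p])‖ < 1 := by
  rw [PadicInt.norm_lt_one_iff_dvd]

theorem isOpen_dvd (p : ℕ) [Fact p.Prime] (m : ℕ) : IsOpen {x : ℤ_[p] | (p : ℤ_[p]) ^ m ∣ x} := by
  have h : {x : ℤ_[p] | (p : ℤ_[p]) ^ m ∣ x} = {x : ℤ_[p] | ‖x‖ < (p : ℝ) ^ (-(m : ℤ) + 1)} := by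
    ext x
    show (p : ℤ_[p]) ^ m ∣ x ↔ ‖x‖ < (p : ℝ) ^ (-(m : ℤ) + 1)
    rw [← PadicInt.norm_le_pow_iff_norm_lt_pow_add_one, PadicInt.norm_le_pow_iff_mem_span_pow,
      Ideal.mem_span_singleton]
  rw [h]
  exact isOpen_lt continuous_norm continuous_const

theorem dvd_aeval_sub {R : Type*} [CommRing R] {m : ℕ} (q : R) (f : MvPolynomial (Fin m) ℤ)
    (v c : Fin m → R) (h : ∀ l, q ∣ v l - c l) : q ∣ aeval v f - aeval c f := by
  induction f using MvPolynomial.induction_on with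
  | C z => simp
  | add f g hf hg =>
    rw [map_add, map_add, add_sub_add_comm]
    exact dvd_add hf hg
  | mul_X f l hf =>
    rw [map_mul, map_mul, aeval_X, aeval_X]
    have : aeval v f * v l - aeval c f * c l =
        (aeval v f - aeval c f) * v l + aeval c f * (v l - c l) := by ring
    rw [this]
    exact dvd_add (hf.mul_right _) ((h l).mul_left _)

theorem norm_le_of_dvd (p : ℕ) [Fact p.Prime] (E : ℕ) (x : ℤ_[p]) (h : (p : ℤ_[p]) ^ E ∣ x) :
    ‖x‖ ≤ ‖(p : ℤ_[p])‖ ^ E := by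
  obtain ⟨y, rfl⟩ := h
  rw [norm_mul, norm_pow]
  exact mul_le_of_le_one_right (by positivity) (PadicInt.norm_le_one y)

theorem continuous_aeval_int {p : ℕ} [Fact p.Prime] {m : ℕ} (f : MvPolynomial (Fin m) ℤ) :
    Continuous fun x : Fin m → ℤ_[p] => aeval x f := by
  have h : (fun x : Fin m → ℤ_[p] => aeval x f) =
      fun x => eval x (map (algebraMap ℤ ℤ_[p]) f) := by
    funext x
    rw [aeval_def, eval_map]
  rw [h]
  exact MvPolynomial.continuous_eval _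

/-- The conclusion for one point. -/
def PP {p : ℕ} [Fact p.Prime] {s : ℕ} {n : Fin s → ℕ} (k N : ℕ)
    (F : ∀ i, MvPolynomial (Fin (n i)) ℤ) (E : ℕ) (a : Fin s → ℤ_[p]) (u : Blk n ℤ_[p]) : Prop :=
  ∃ c : Blk n ℤ_[p], ∀ v : Blk n ℤ_[p], (∀ i l, (p : ℤ_[p]) ^ E ∣ v i l - c i l) →
      (∀ i l, (p : ℤ_[p]) ^ N ∣ v i l - u i l) ∧
      ∃ x : Fin s → ℤ_[p], (∀ i, (p : ℤ_[p]) ^ N ∣ x i - 1) ∧
        ∑ i, a i * aeval (v i) (F i) * x i ^ k = 0

theorem PP_mono {p : ℕ} [Fact p.Prime] {s : ℕ} {n : Fin s → ℕ} (k N : ℕ)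
    (F : ∀ i, MvPolynomial (Fin (n i)) ℤ) {E E' : ℕ} (hE : E ≤ E') (a : Fin s → ℤ_[p])
    (u : Blk n ℤ_[p]) (h : PP k N F E a u) : PP k N F E' a u := by
  obtain ⟨c, hc⟩ := h
  exact ⟨c, fun v hv => hc v fun i l => (pow_dvd_pow _ hE).trans (hv i l)⟩

/-- Solving for one variable by Hensel's lemma. -/
theorem hensel_step {p : ℕ} [Fact p.Prime] {s : ℕ} (k N E : ℕ) (b b' : Fin s → ℤ_[p])
    (hb : ∀ i, (p : ℤ_[p]) ^ E ∣ b i - b' i) (hb' : ∑ i, b' i = 0) (j : Fin s)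
    (hlt : ‖(p : ℤ_[p])‖ ^ E < ‖(k : ℤ_[p]) * b' j * (p : ℤ_[p]) ^ N‖ ^ 2) :
    ∃ x : Fin s → ℤ_[p], (∀ i, (p : ℤ_[p]) ^ N ∣ x i - 1) ∧ ∑ i, b i * x i ^ k = 0 := by
  classical
  set q : ℤ_[p] := (p : ℤ_[p]) ^ N with hq
  set S : ℤ_[p] := ∑ i ∈ univ.erase j, b i with hS
  let f : Polynomial ℤ_[p] := Polynomial.C S + Polynomial.C (b j) *
    (1 + Polynomial.C q * Polynomial.X) ^ k
  have hf0 : Polynomial.aeval (0 : ℤ_[p]) f = ∑ i, b i := by
    simp only [f, map_add, map_mul, map_pow, Polynomial.aeval_C, Polynomial.aeval_X, map_one,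
      mul_zero, add_zero, one_pow, mul_one, Algebra.algebraMap_self, RingHom.id_apply]
    rw [hS, Finset.sum_erase_add _ _ (Finset.mem_univ j)]
  have hf1 : Polynomial.aeval (0 : ℤ_[p]) (Polynomial.derivative f) = k * b j * q := by
    simp only [f, Polynomial.derivative_C, Polynomial.derivative_mul,
      Polynomial.derivative_pow, Polynomial.derivative_one, Polynomial.derivative_X, map_add,
      map_mul, map_pow, Polynomial.aeval_C, Polynomial.aeval_X, map_one, mul_zero, add_zero,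
      one_pow, mul_one, Algebra.algebraMap_self, RingHom.id_apply, zero_mul, zero_add,
      map_natCast]
    ring
  have hp1 : ‖(p : ℤ_[p])‖ < 1 := norm_p_lt p
  have hnorm0 : ‖∑ i, b i‖ ≤ ‖(p : ℤ_[p])‖ ^ E := by
    apply norm_le_of_dvd
    have : ∑ i, b i = ∑ i, (b i - b' i) := by
      rw [Finset.sum_sub_distrib, hb', sub_zero]
    rw [this]
    exact Finset.dvd_sum fun i _ => hb i
  have hle1 : ‖(k : ℤ_[p]) * b' j * q‖ ≤ 1 := PadicInt.norm_le_one _
  have hnorm1 : ‖(k : ℤ_[p]) * b j * q‖ = ‖(k : ℤ_[p]) * b' j * q‖ := by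
    have h1 : ‖(k : ℤ_[p]) * b j * q + -((k : ℤ_[p]) * b' j * q)‖ ≤ ‖(p : ℤ_[p])‖ ^ E := by
      apply norm_le_of_dvd
      have : (k : ℤ_[p]) * b j * q + -((k : ℤ_[p]) * b' j * q) =
          (k : ℤ_[p]) * q * (b j - b' j) := by ring
      rw [this]
      exact (hb j).mul_left _
    have h2 : ‖(k : ℤ_[p]) * b' j * q‖ ^ 2 ≤ ‖(k : ℤ_[p]) * b' j * q‖ := by
      rw [sq]
      exact mul_le_of_le_one_right (norm_nonneg _) hle1
    have h3 := PadicInt.norm_eq_of_norm_add_lt_right (z1 := (k : ℤ_[p]) * b j * q)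
      (z2 := -((k : ℤ_[p]) * b' j * q)) (by rw [norm_neg]; linarith)
    rw [h3, norm_neg]
  have hh : ‖Polynomial.aeval (0 : ℤ_[p]) f‖ < ‖Polynomial.aeval (0 : ℤ_[p])
      (Polynomial.derivative f)‖ ^ 2 := by
    rw [hf0, hf1, hnorm1]
    linarith
  obtain ⟨z, hz, -⟩ := hensels_lemma hh
  refine ⟨fun i => if i = j then 1 + q * z else 1, ?_, ?_⟩
  · intro i
    by_cases hij : i = j
    · simp only [hij, if_true]
      have : 1 + q * z - 1 = q * z := by ring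
      rw [this]
      exact dvd_mul_right _ _
    · simp [hij]
  · rw [← Finset.sum_erase_add _ _ (Finset.mem_univ j)]
    have h1 : ∑ i ∈ univ.erase j, b i * (if i = j then 1 + q * z else 1) ^ k = S := by
      rw [hS]
      apply Finset.sum_congr rfl
      intro i hi
      rw [if_neg (Finset.ne_of_mem_erase hi), one_pow, mul_one]
    rw [h1]
    show S + b j * (if j = j then 1 + q * z else 1) ^ k = 0
    rw [if_pos rfl, ← hz]
    simp only [f, map_add, map_mul, map_pow, Polynomial.aeval_C, Polynomial.aeval_X, map_one,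
      Algebra.algebraMap_self, RingHom.id_apply]

/-- The local statement. -/
theorem local_step (h : S_pertP) (p : ℕ) [hp : Fact p.Prime] (k s : ℕ) (n : Fin s → ℕ)
    (F : ∀ i, MvPolynomial (Fin (n i)) ℤ) (hk : 1 ≤ k) (hs : 2 ≤ s) (hA : Adm k s n F) (N : ℕ)
    (a0 : Fin s → ℤ_[p]) (u0 : Blk n ℤ_[p]) (ha : ∀ i, a0 i ≠ 0) (hu : u0 ≠ 0)
    (hval : val F a0 u0 = 0) :
    ∃ E : ℕ, ∀ (a : Fin s → ℤ_[p]) (u : Blk n ℤ_[p]), (∀ i, (p : ℤ_[p]) ^ E ∣ a i - a0 i) →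
      (∀ i l, (p : ℤ_[p]) ^ N ∣ u i l - u0 i l) → PP k N F E a u := by
  obtain ⟨c, hc, hcv, j, hj⟩ := h p hp k s n F hs hA a0 u0 N ha hu hval
  have hpos : 0 < ‖(k : ℤ_[p]) * (a0 j * aeval (c j) (F j)) * (p : ℤ_[p]) ^ N‖ ^ 2 := by
    have hk0 : (k : ℤ_[p]) ≠ 0 := by
      have : k ≠ 0 := by omega
      exact_mod_cast this
    have hp0 : (p : ℤ_[p]) ≠ 0 := by
      have : p ≠ 0 := hp.out.ne_zero
      exact_mod_cast this
    have : (k : ℤ_[p]) * (a0 j * aeval (c j) (F j)) * (p : ℤ_[p]) ^ N ≠ 0 :=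
      mul_ne_zero (mul_ne_zero hk0 (mul_ne_zero (ha j) hj)) (pow_ne_zero _ hp0)
    positivity
  obtain ⟨e, he⟩ := exists_pow_lt_of_lt_one hpos (norm_p_lt p)
  have hlt : ‖(p : ℤ_[p])‖ ^ (max e N) <
      ‖(k : ℤ_[p]) * (a0 j * aeval (c j) (F j)) * (p : ℤ_[p]) ^ N‖ ^ 2 :=
    lt_of_le_of_lt (pow_le_pow_of_le_one (norm_nonneg _) (norm_p_lt p).le
      (le_max_left _ _)) he
  refine ⟨max e N, fun a u haa huu => ⟨c, fun v hv => ⟨fun i l => ?_, ?_⟩⟩⟩
  · have h1 : (p : ℤ_[p]) ^ N ∣ v i l - c i l :=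
      (pow_dvd_pow _ (le_max_right e N)).trans (hv i l)
    have h2 : v i l - u i l = (v i l - c i l) + (c i l - u0 i l) - (u i l - u0 i l) := by ring
    rw [h2]
    exact dvd_sub (dvd_add h1 (hc i l)) (huu i l)
  · refine hensel_step k N (max e N) (fun i => a i * aeval (v i) (F i))
      (fun i => a0 i * aeval (c i) (F i)) (fun i => ?_) hcv j hlt
    have h1 : a i * aeval (v i) (F i) - a0 i * aeval (c i) (F i) =
        (a i - a0 i) * aeval (v i) (F i) + a0 i * (aeval (v i) (F i) - aeval (c i) (F i)) := by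
      ring
    show (p : ℤ_[p]) ^ (max e N) ∣ a i * aeval (v i) (F i) - a0 i * aeval (c i) (F i)
    rw [h1]
    exact dvd_add ((haa i).mul_right _) ((dvd_aeval_sub _ (F i) _ _ (hv i)).mul_left _)

end T2

open T2 in
theorem recP (h : S_pertP) : S_recP := by
  intro p hp k s n F hk hs hA M N
  let K : Set ((Fin s → ℤ_[p]) × Blk n ℤ_[p]) :=
    {x | (∀ i, ¬ (p : ℤ_[p]) ^ (M + 1) ∣ x.1 i) ∧ (∃ i l, IsUnit (x.2 i l)) ∧ val F x.1 x.2 = 0}
  have hKc : IsClosed K := by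
    have h1 : IsClosed {x : (Fin s → ℤ_[p]) × Blk n ℤ_[p] |
        ∀ i, ¬ (p : ℤ_[p]) ^ (M + 1) ∣ x.1 i} := by
      have h2 : {x : (Fin s → ℤ_[p]) × Blk n ℤ_[p] | ∀ i, ¬ (p : ℤ_[p]) ^ (M + 1) ∣ x.1 i} =
          ⋂ i, (fun x : (Fin s → ℤ_[p]) × Blk n ℤ_[p] => x.1 i) ⁻¹'
            {y : ℤ_[p] | (p : ℤ_[p]) ^ (M + 1) ∣ y}ᶜ := by
        ext x
        simp
      rw [h2]
      refine isClosed_iInter fun i => ?_
      exact (isOpen_dvd p (M + 1)).isClosed_compl.preimage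
        ((continuous_apply i).comp continuous_fst)
    have h3 : IsClosed {x : (Fin s → ℤ_[p]) × Blk n ℤ_[p] | ∃ i l, IsUnit (x.2 i l)} := by
      have h4 : {x : (Fin s → ℤ_[p]) × Blk n ℤ_[p] | ∃ i l, IsUnit (x.2 i l)} =
          ⋃ i, ⋃ l, {x : (Fin s → ℤ_[p]) × Blk n ℤ_[p] | ‖x.2 i l‖ = 1} := by
        ext x
        simp [PadicInt.isUnit_iff]
      rw [h4]
      refine isClosed_iUnion_of_finite fun i => isClosed_iUnion_of_finite fun l => ?_
      exact isClosed_eq (continuous_norm.comp ((continuous_apply l).comp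
        ((continuous_apply i).comp continuous_snd))) continuous_const
    have h5 : IsClosed {x : (Fin s → ℤ_[p]) × Blk n ℤ_[p] | val F x.1 x.2 = 0} := by
      refine isClosed_eq ?_ continuous_const
      unfold val
      refine continuous_finsetSum _ fun i _ => ?_
      exact ((continuous_apply i).comp continuous_fst).mul
        ((continuous_aeval_int (F i)).comp ((continuous_apply i).comp continuous_snd))
    exact h1.inter (h3.inter h5)
  have hK : IsCompact K := hKc.isCompact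
  have key : ∃ E : ℕ, ∀ x ∈ K, PP k N F E x.1 x.2 := by
    refine hK.induction_on (p := fun S => ∃ E : ℕ, ∀ x ∈ S, PP k N F E x.1 x.2) ?_ ?_ ?_ ?_
    · exact ⟨0, fun x hx => hx.elim⟩
    · rintro S S' hSS ⟨E, hE⟩
      exact ⟨E, fun x hx => hE x (hSS hx)⟩
    · rintro S S' ⟨E, hE⟩ ⟨E', hE'⟩
      refine ⟨max E E', fun x hx => ?_⟩
      rcases hx with hx | hx
      · exact PP_mono k N F (le_max_left _ _) _ _ (hE x hx)
      · exact PP_mono k N F (le_max_right _ _) _ _ (hE' x hx)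
    · rintro ⟨a0, u0⟩ ⟨ha0, ⟨i0, l0, hunit⟩, hv0⟩
      have ha : ∀ i, a0 i ≠ 0 := fun i hi => ha0 i (by
        show (p : ℤ_[p]) ^ (M + 1) ∣ a0 i
        rw [hi]; exact dvd_zero _)
      have hu : u0 ≠ 0 := by
        rintro rfl
        simp at hunit
      obtain ⟨E, hE⟩ := local_step h p k s n F hk hs hA N a0 u0 ha hu hv0
      refine ⟨{x | (∀ i, (p : ℤ_[p]) ^ E ∣ x.1 i - a0 i) ∧
        ∀ i l, (p : ℤ_[p]) ^ N ∣ x.2 i l - u0 i l}, ?_, E, fun x hx => hE x.1 x.2 hx.1 hx.2⟩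
      apply mem_nhdsWithin_of_mem_nhds
      have h1 : ∀ᶠ x : (Fin s → ℤ_[p]) × Blk n ℤ_[p] in 𝓝 (a0, u0),
          ∀ i, (p : ℤ_[p]) ^ E ∣ x.1 i - a0 i := by
        rw [eventually_all]
        intro i
        have hc : Continuous fun x : (Fin s → ℤ_[p]) × Blk n ℤ_[p] => x.1 i - a0 i :=
          ((continuous_apply i).comp continuous_fst).sub continuous_const
        exact hc.continuousAt.preimage_mem_nhds ((isOpen_dvd p E).mem_nhds (by simp))
      have h2 : ∀ᶠ x : (Fin s → ℤ_[p]) × Blk n ℤ_[p] in 𝓝 (a0, u0),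
          ∀ i l, (p : ℤ_[p]) ^ N ∣ x.2 i l - u0 i l := by
        rw [eventually_all]
        intro i
        rw [eventually_all]
        intro l
        have hc0 : Continuous fun x : (Fin s → ℤ_[p]) × Blk n ℤ_[p] => x.2 i l :=
          (continuous_apply l).comp ((continuous_apply i).comp continuous_snd)
        have hc : Continuous fun x : (Fin s → ℤ_[p]) × Blk n ℤ_[p] => x.2 i l - u0 i l :=
          hc0.sub continuous_const
        exact hc.continuousAt.preimage_mem_nhds ((isOpen_dvd p N).mem_nhds (by simp))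
      exact h1.and h2
  obtain ⟨E, hE⟩ := key
  exact ⟨E, fun a u ha hu hv => hE (a, u) ⟨ha, hu, hv⟩⟩

end Pool.Agent.H888.SF
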