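import Pool.Agent.H888.SF.Defs

/-!
# T3: real perturbation of a zero
-/

set_option autoImplicit false

namespace Pool.Agent.H888.SF

open Finset MvPolynomial Filter Topology

namespace T3

/-- a smooth form in at least one variable is not zero -/
theorem ne_zero {m : ℕ} (hm : 1 ≤ m) {F : MvPolynomial (Fin m) ℤ} (hF : SmoothForm F) : F ≠ 0 := by
  intro h
  subst h
  have h1 := hF ℚ (fun _ => 1) (fun l => by rw [map_zero, map_zero])
  have h2 := congrFun h1 ⟨0, hm⟩
  exact one_ne_zero h2

theorem exists_ne {m : ℕ} {F : MvPolynomial (Fin m) ℤ} (hF : F ≠ 0) :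
    ∃ y0 : Fin m → ℝ, aeval y0 F ≠ 0 := by
  by_contra hcon
  push Not at hcon
  apply hF
  have h1 : MvPolynomial.map (Int.castRingHom ℝ) F = 0 := by
    apply MvPolynomial.funext
    intro x
    rw [map_zero, ← hcon x, aeval_def, eval₂_eq_eval_map]
    rfl
  exact (map_eq_zero_iff (MvPolynomial.map (Int.castRingHom ℝ))
    (MvPolynomial.map_injective _ Int.cast_injective)).1 h1

/-- evaluation of a composed polynomial -/
theorem eval_aeval {m : ℕ} (F : MvPolynomial (Fin m) ℤ) (v : Fin m → Polynomial ℝ) (t : ℝ) :
    (aeval v F).eval t = aeval (fun i => (v i).eval t) F := by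
  have h := comp_aeval_apply (R := ℤ) v ((Polynomial.evalRingHom t).toIntAlgHom) F
  exact h

theorem derivative_aeval {m : ℕ} (F : MvPolynomial (Fin m) ℤ) (y : Fin m → ℝ) (l : Fin m) :
    Polynomial.derivative (aeval (fun i => Polynomial.C (y i) + if i = l then Polynomial.X else 0)
      F) = aeval (fun i => Polynomial.C (y i) + if i = l then Polynomial.X else 0)
      (pderiv l F) := by
  induction F using MvPolynomial.induction_on with
  | C c =>
    rw [pderiv_C, map_zero, aeval_C, eq_intCast, Polynomial.derivative_intCast]
  | add p q hp hq => rw [map_add, map_add, hp, hq, map_add, map_add]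
  | mul_X p i hp =>
    rw [map_mul, Polynomial.derivative_mul, hp, pderiv_mul, map_add, map_mul, map_mul, aeval_X]
    congr 2
    rw [Polynomial.derivative_add, Polynomial.derivative_C, zero_add, pderiv_X, Pi.single_apply]
    by_cases h : i = l
    · rw [if_pos h, if_pos h, Polynomial.derivative_X, map_one]
    · rw [if_neg h, if_neg h, Polynomial.derivative_zero, map_zero]

end T3

open T3 in
theorem pertR : S_pertR := by
  classical
  intro k s n F hs hA a y δ hδ ha hy hval
  by_cases hall : ∃ j, aeval (y j) (F j) ≠ 0
  · refine ⟨y, fun i l => ?_, hval, hall⟩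
    rw [sub_self, abs_zero]
    exact hδ.le
  · push Not at hall
    -- the index `i0`
    obtain ⟨i0, hi0⟩ : ∃ i0, y i0 ≠ 0 := by
      by_contra hcon
      push Not at hcon
      exact hy (funext hcon)
    obtain ⟨l, hl⟩ : ∃ l, aeval (y i0) (pderiv l (F i0)) ≠ 0 := by
      by_contra hcon
      push Not at hcon
      exact hi0 (hA.smooth i0 ℝ (y i0) hcon)
    -- the index `j`
    obtain ⟨j, hj⟩ : ∃ j : Fin s, j ≠ i0 := by
      by_cases h : i0 = ⟨0, by omega⟩
      · refine ⟨⟨1, by omega⟩, ?_⟩
        rw [h]
        intro h'
        have := congrArg Fin.val h'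
        simp at this
      · exact ⟨⟨0, by omega⟩, fun h' => h h'.symm⟩
    obtain ⟨y0, hy0⟩ := exists_ne (ne_zero (hA.npos j) (hA.smooth j))
    -- the two polynomials
    set g : Polynomial ℝ := aeval (fun i => Polynomial.C (y j i) +
      Polynomial.X * Polynomial.C (y0 i - y j i)) (F j) with hg
    set q : Polynomial ℝ := aeval (fun i => Polynomial.C (y i0 i) +
      if i = l then Polynomial.X else 0) (F i0) with hq
    have gval : ∀ t : ℝ, g.eval t = aeval (fun i => y j i + t * (y0 i - y j i)) (F j) := by
      intro t
      rw [hg, eval_aeval]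
      congr 2
      funext i
      simp
    have qval : ∀ t : ℝ, q.eval t = aeval (fun i => y i0 i + if i = l then t else 0) (F i0) := by
      intro t
      rw [hq, eval_aeval]
      congr 2
      funext i
      by_cases h : i = l
      · simp [h]
      · simp [h]
    have g0 : g.eval 0 = 0 := by
      rw [gval]
      have : (fun i => y j i + 0 * (y0 i - y j i)) = y j := by
        funext i
        ring
      rw [this]
      exact hall j
    have g1 : g ≠ 0 := by
      intro h
      apply hy0
      have h1 := gval 1
      rw [h, Polynomial.eval_zero] at h1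
      have : (fun i => y j i + 1 * (y0 i - y j i)) = y0 := by
        funext i
        ring
      rw [this] at h1
      exact h1.symm
    have q0 : q.eval 0 = 0 := by
      rw [qval]
      have : (fun i => y i0 i + if i = l then (0 : ℝ) else 0) = y i0 := by
        funext i
        simp
      rw [this]
      exact hall i0
    have q1 : q.derivative.eval 0 ≠ 0 := by
      rw [hq, derivative_aeval, eval_aeval]
      have : (fun i => (Polynomial.C (y i0 i) + if i = l then Polynomial.X else 0 :
          Polynomial ℝ).eval 0) = y i0 := by
        funext i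
        by_cases h : i = l
        · simp [h]
        · simp [h]
      rw [this]
      exact hl
    -- open mapping
    have hopen : Filter.map (fun t => q.eval t) (𝓝 (0 : ℝ)) = 𝓝 (0 : ℝ) := by
      have := (q.hasStrictDerivAt 0).map_nhds_eq q1
      rwa [q0] at this
    have himg : (fun t => q.eval t) '' (Metric.ball (0 : ℝ) δ) ∈ 𝓝 (0 : ℝ) := by
      rw [← hopen]
      exact image_mem_map (Metric.ball_mem_nhds 0 hδ)
    have hlim : Tendsto (fun t : ℝ => -(a j) * g.eval t / a i0) (𝓝 0) (𝓝 0) := by
      have hc : Continuous (fun t : ℝ => -(a j) * g.eval t / a i0) := by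
        have := g.continuous
        fun_prop
      have := hc.tendsto 0
      simp only [g0, mul_zero, zero_div] at this
      exact this
    have ev1 : ∀ᶠ t in 𝓝[≠] (0 : ℝ), -(a j) * g.eval t / a i0 ∈
        (fun t => q.eval t) '' (Metric.ball (0 : ℝ) δ) :=
      (hlim.eventually himg).filter_mono nhdsWithin_le_nhds
    have ev2 : ∀ᶠ t in 𝓝[≠] (0 : ℝ), ∀ i, |t * (y0 i - y j i)| ≤ δ := by
      refine Filter.Eventually.filter_mono nhdsWithin_le_nhds ?_
      rw [eventually_all]
      intro i
      have hc : Continuous (fun t : ℝ => |t * (y0 i - y j i)|) := by fun_prop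
      have h1 := hc.tendsto 0
      simp only [zero_mul, abs_zero] at h1
      exact h1.eventually (ge_mem_nhds hδ)
    have ev3 : ∀ᶠ t in 𝓝[≠] (0 : ℝ), g.eval t ≠ 0 := by
      have hfin : {t : ℝ | g.IsRoot t}.Finite := Polynomial.finite_setOfPred_isRoot g1
      have h1 : ({t : ℝ | g.IsRoot t} \ {0})ᶜ ∈ 𝓝 (0 : ℝ) := by
        apply (hfin.subset Set.sdiff_subset).isClosed.isOpen_compl.mem_nhds
        simp
      filter_upwards [mem_nhdsWithin_of_mem_nhds h1, self_mem_nhdsWithin] with t h2 h3 h4
      exact h2 ⟨h4, h3⟩
    obtain ⟨t, ⟨⟨τ, hτ, hτ2⟩, ht2⟩, ht3⟩ := ((ev1.and ev2).and ev3).exists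
    have hτ' : |τ| ≤ δ := by
      rw [mem_ball_zero_iff, Real.norm_eq_abs] at hτ
      exact hτ.le
    refine ⟨Function.update (Function.update y i0 (fun i => y i0 i + if i = l then τ else 0)) j
      (fun i => y j i + t * (y0 i - y j i)), ?_, ?_, j, ?_⟩
    · intro i m
      by_cases h1 : i = j
      · subst h1
        rw [Function.update_self, add_sub_cancel_left]
        exact ht2 m
      · rw [Function.update_of_ne h1]
        by_cases h2 : i = i0
        · subst h2
          rw [Function.update_self, add_sub_cancel_left]
          split_ifs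
          · exact hτ'
          · rw [abs_zero]
            exact hδ.le
        · rw [Function.update_of_ne h2, sub_self, abs_zero]
          exact hδ.le
    · unfold val
      rw [Finset.sum_eq_add i0 j hj.symm]
      · rw [Function.update_self, Function.update_of_ne hj.symm, Function.update_self, ← qval,
          ← gval]
        have h1 : q.eval τ = -(a j) * g.eval t / a i0 := hτ2
        rw [h1]
        have := ha i0
        field_simp
        ring
      · rintro i - ⟨h1, h2⟩
        rw [Function.update_of_ne h2, Function.update_of_ne h1, hall i, mul_zero]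
      · intro h
        exact absurd (Finset.mem_univ _) h
      · intro h
        exact absurd (Finset.mem_univ _) h
    · rw [Function.update_self, ← gval]
      exact ht3

end Pool.Agent.H888.SF
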