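import Pool.Agent.H888.SF.Defs

/-!
# T4: uniform real recipes by compactness (helper154, for helper888)
-/

set_option autoImplicit false

namespace Pool.Agent.H888.SF

open Finset MvPolynomial

namespace T4L

theorem cont_F {m : ℕ} (F : MvPolynomial (Fin m) ℤ) :
    Continuous fun y : Fin m → ℝ => aeval y F := by
  have h : (fun y : Fin m → ℝ => aeval y F) =
      fun y => eval y (map (Int.castRingHom ℝ) F) := by
    funext y
    rw [eval_map, aeval_def, algebraMap_int_eq]
  rw [h]
  exact MvPolynomial.continuous_eval _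

theorem cont_b {s : ℕ} {n : Fin s → ℕ} (F : ∀ i, MvPolynomial (Fin (n i)) ℤ) (i : Fin s) :
    Continuous fun q : (Fin s → ℝ) × Blk n ℝ => q.1 i * aeval (q.2 i) (F i) :=
  ((continuous_apply i).comp continuous_fst).mul
    ((cont_F (F i)).comp ((continuous_apply i).comp continuous_snd))

theorem cont_val {s : ℕ} {n : Fin s → ℕ} (F : ∀ i, MvPolynomial (Fin (n i)) ℤ) :
    Continuous fun q : (Fin s → ℝ) × Blk n ℝ => val F q.1 q.2 := by
  unfold val
  exact continuous_finsetSum _ fun i _ => cont_b F i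

theorem abs_sub_le {x : ℝ} {k : ℕ} (hk : 1 ≤ k) (hx : 0 ≤ x) : |x - 1| ≤ |x ^ k - 1| := by
  rcases le_total x 1 with h | h
  · have h1 : x ^ k ≤ x := pow_le_of_le_one hx h (by omega)
    rw [abs_of_nonpos (by linarith), abs_of_nonpos (by linarith)]
    linarith
  · have h1 : x ≤ x ^ k := le_self_pow₀ h (by omega)
    rw [abs_of_nonneg (by linarith), abs_of_nonneg (by linarith)]
    linarith

theorem solve {s : ℕ} (b : Fin s → ℝ) (k : ℕ) (hk : 1 ≤ k) (j : Fin s) (hb : b j ≠ 0) (δ : ℝ)
    (hδ : 0 ≤ δ) (h1 : |(∑ i, b i) / b j| ≤ 1) (h2 : |(∑ i, b i) / b j| ≤ δ) :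
    ∃ x : Fin s → ℝ, (∀ i, |x i - 1| ≤ δ) ∧ ∑ i, b i * x i ^ k = 0 := by
  classical
  set r : ℝ := (∑ i, b i) / b j with hr
  have hr1 : 0 ≤ 1 - r := by
    have := abs_le.1 h1
    linarith [this.2]
  have hk0 : k ≠ 0 := by omega
  have hxk : ((1 - r) ^ ((1 : ℝ) / k)) ^ k = 1 - r := by
    rw [one_div]
    exact Real.rpow_inv_natCast_pow hr1 hk0
  refine ⟨Function.update (fun _ => 1) j ((1 - r) ^ ((1 : ℝ) / k)), ?_, ?_⟩
  · intro i
    by_cases hi : i = j
    · subst hi
      rw [Function.update_self]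
      refine (abs_sub_le hk (Real.rpow_nonneg hr1 _)).trans ?_
      rw [hxk]
      have e : 1 - r - 1 = -r := by ring
      rw [e, abs_neg]
      exact h2
    · rw [Function.update_of_ne hi, sub_self, abs_zero]
      exact hδ
  · have e1 : ∀ i, b i * (Function.update (fun _ => (1 : ℝ)) j ((1 - r) ^ ((1 : ℝ) / k)) i) ^ k =
        b i + if i = j then b j * (-r) else 0 := by
      intro i
      by_cases hi : i = j
      · subst hi
        rw [Function.update_self, hxk, if_pos rfl]
        ring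
      · rw [Function.update_of_ne hi, if_neg hi]
        ring
    rw [Finset.sum_congr rfl fun i _ => e1 i, Finset.sum_add_distrib, Finset.sum_ite_eq' univ j]
    rw [if_pos (Finset.mem_univ j), hr]
    field_simp
    ring

end T4L

open T4L in
theorem recR (h : S_pertR) : S_recR := by
  intro k s n F hk hs hA ρ δ hρ hδ
  set K : Set ((Fin s → ℝ) × Blk n ℝ) := {q | (∀ i, ρ ≤ |q.1 i| ∧ |q.1 i| ≤ 1) ∧
    (∀ i l, |q.2 i l| ≤ 1) ∧ (∃ i l, |q.2 i l| = 1) ∧ val F q.1 q.2 = 0} with hK
  have hcl : IsClosed K := by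
    have ha : ∀ i : Fin s, Continuous fun q : (Fin s → ℝ) × Blk n ℝ => |q.1 i| := fun i =>
      continuous_abs.comp ((continuous_apply i).comp continuous_fst)
    have hy : ∀ (i : Fin s) (l : Fin (n i)),
        Continuous fun q : (Fin s → ℝ) × Blk n ℝ => |q.2 i l| := fun i l =>
      continuous_abs.comp ((continuous_apply l).comp ((continuous_apply i).comp continuous_snd))
    have e : K = (⋂ i : Fin s, ({q | ρ ≤ |q.1 i|} ∩ {q | |q.1 i| ≤ 1})) ∩
        ((⋂ i : Fin s, ⋂ l : Fin (n i), {q | |q.2 i l| ≤ 1}) ∩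
        ((⋃ i : Fin s, ⋃ l : Fin (n i), {q | |q.2 i l| = 1}) ∩ {q | val F q.1 q.2 = 0})) := by
      ext q
      simp only [hK, Set.mem_ofPred_eq, Set.mem_inter_iff, Set.mem_iInter, Set.mem_iUnion]
    rw [e]
    refine (isClosed_iInter fun i => (isClosed_le continuous_const (ha i)).inter
      (isClosed_le (ha i) continuous_const)).inter ((isClosed_iInter fun i =>
        isClosed_iInter fun l => isClosed_le (hy i l) continuous_const).inter
      ((isClosed_iUnion_of_finite fun i => isClosed_iUnion_of_finite fun l =>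
        isClosed_eq (hy i l) continuous_const).inter (isClosed_eq (cont_val F) continuous_const)))
  have hco : IsCompact K := by
    refine (isCompact_closedBall (0 : (Fin s → ℝ) × Blk n ℝ) 1).of_isClosed_subset hcl ?_
    intro q hq
    rw [mem_closedBall_zero_iff, Prod.norm_def, max_le_iff]
    refine ⟨(pi_norm_le_iff_of_nonneg zero_le_one).2 fun i => (hq.1 i).2,
      (pi_norm_le_iff_of_nonneg zero_le_one).2 fun i =>
        (pi_norm_le_iff_of_nonneg zero_le_one).2 fun l => hq.2.1 i l⟩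
  have key : ∃ η : ℝ, 0 < η ∧ ∀ q ∈ K, q ∈ K →
      ∃ c : Blk n ℝ, (∀ i l, |c i l| ≤ 2) ∧ ∀ w : Blk n ℝ, (∀ i l, |w i l - c i l| ≤ η) →
        (∀ i l, |w i l - q.2 i l| ≤ δ) ∧
        ∃ x : Fin s → ℝ, (∀ i, |x i - 1| ≤ δ) ∧
          ∑ i, q.1 i * aeval (w i) (F i) * x i ^ k = 0 := by
    refine hco.induction_on (p := fun T => ∃ η : ℝ, 0 < η ∧ ∀ q ∈ T, q ∈ K →
      ∃ c : Blk n ℝ, (∀ i l, |c i l| ≤ 2) ∧ ∀ w : Blk n ℝ, (∀ i l, |w i l - c i l| ≤ η) →
        (∀ i l, |w i l - q.2 i l| ≤ δ) ∧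
        ∃ x : Fin s → ℝ, (∀ i, |x i - 1| ≤ δ) ∧
          ∑ i, q.1 i * aeval (w i) (F i) * x i ^ k = 0) ?_ ?_ ?_ ?_
    · exact ⟨1, one_pos, fun q hq => absurd hq (Set.notMem_empty q)⟩
    · rintro T T' hT ⟨η, hη, hq⟩
      exact ⟨η, hη, fun q hqT => hq q (hT hqT)⟩
    · rintro T T' ⟨η, hη, hq⟩ ⟨η', hη', hq'⟩
      refine ⟨min η η', lt_min hη hη', fun q hqT hqK => ?_⟩
      rcases hqT with hqT | hqT
      · obtain ⟨c, hc, hw⟩ := hq q hqT hqK
        exact ⟨c, hc, fun w hwc => hw w fun i l => (hwc i l).trans (min_le_left _ _)⟩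
      · obtain ⟨c, hc, hw⟩ := hq' q hqT hqK
        exact ⟨c, hc, fun w hwc => hw w fun i l => (hwc i l).trans (min_le_right _ _)⟩
    · rintro ⟨a₀, y₀⟩ ⟨hK1', hK2', ⟨i₁, l₁, hK3'⟩, hK4'⟩
      have hK1 : ∀ i, ρ ≤ |a₀ i| ∧ |a₀ i| ≤ 1 := hK1'
      have hK2 : ∀ i l, |y₀ i l| ≤ 1 := hK2'
      have hK3 : |y₀ i₁ l₁| = 1 := hK3'
      have hK4 : val F a₀ y₀ = 0 := hK4'
      set δ' : ℝ := min δ 1 / 4 with hδ'
      have hδ1 : 0 < δ' := by positivity
      have hδ2 : 4 * δ' ≤ δ := by
        have := min_le_left δ 1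
        rw [hδ']
        linarith
      have hδ3 : 4 * δ' ≤ 1 := by
        have := min_le_right δ 1
        rw [hδ']
        linarith
      obtain ⟨c, hc1, hc2, j, hc3⟩ := h k s n F hs hA a₀ y₀ δ' hδ1
        (fun i hi => by
          have := (hK1 i).1
          rw [hi, abs_zero] at this
          linarith)
        (fun hy => by
          have h0 : y₀ i₁ l₁ = 0 := by rw [hy]; rfl
          rw [h0, abs_zero] at hK3
          norm_num at hK3) hK4
      have haj : a₀ j ≠ 0 := fun hi => by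
        have := (hK1 j).1
        rw [hi, abs_zero] at this
        linarith
      have hb0 : a₀ j * aeval (c j) (F j) ≠ 0 := mul_ne_zero haj hc3
      have hg : ContinuousAt (fun q : (Fin s → ℝ) × Blk n ℝ =>
          |val F q.1 q.2 / (q.1 j * aeval (q.2 j) (F j))|) (a₀, c) :=
        ((cont_val F).continuousAt.div (cont_b F j).continuousAt hb0).abs
      have hg0 : (fun q : (Fin s → ℝ) × Blk n ℝ =>
          |val F q.1 q.2 / (q.1 j * aeval (q.2 j) (F j))|) (a₀, c) = 0 := by
        show |val F a₀ c / (a₀ j * aeval (c j) (F j))| = 0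
        rw [hc2, zero_div, abs_zero]
      have he1 : ∀ᶠ q : (Fin s → ℝ) × Blk n ℝ in nhds (a₀, c),
          |val F q.1 q.2 / (q.1 j * aeval (q.2 j) (F j))| < 4 * δ' := by
        refine hg.tendsto.eventually_lt_const ?_
        refine lt_of_eq_of_lt hg0 ?_
        positivity
      have he2 : ∀ᶠ q : (Fin s → ℝ) × Blk n ℝ in nhds (a₀, c),
          q.1 j * aeval (q.2 j) (F j) ≠ 0 := by
        exact (cont_b F j).continuousAt.eventually_ne hb0
      obtain ⟨ε, hε, hball⟩ := Metric.eventually_nhds_iff_ball.1 (he1.and he2)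
      refine ⟨Metric.ball (a₀, y₀) (min ε δ'), mem_nhdsWithin_of_mem_nhds
        (Metric.ball_mem_nhds _ (lt_min hε hδ1)), min (ε / 2) δ', lt_min (by linarith) hδ1, ?_⟩
      rintro ⟨a, y⟩ hq hqK
      rw [Metric.mem_ball, Prod.dist_eq, max_lt_iff] at hq
      obtain ⟨hqa, hqy⟩ := hq
      refine ⟨c, ?_, ?_⟩
      · intro i l
        have h1 := hc1 i l
        have h2 := hK2 i l
        have h3 : |c i l| ≤ |c i l - y₀ i l| + |y₀ i l| := by
          have := abs_add_le (c i l - y₀ i l) (y₀ i l)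
          rwa [sub_add_cancel] at this
        have h2' : |y₀ i l| ≤ 1 := h2
        linarith
      · intro w hw
        have hyy : ∀ i l, |y₀ i l - y i l| ≤ δ' := by
          intro i l
          have h1 : dist (y i l) (y₀ i l) ≤ dist y y₀ :=
            (dist_le_pi_dist (y i) (y₀ i) l).trans (dist_le_pi_dist y y₀ i)
          rw [Real.dist_eq, abs_sub_comm] at h1
          have h2 := hqy.le.trans (min_le_right ε δ')
          exact h1.trans h2
        refine ⟨?_, ?_⟩
        · intro i l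
          have h1 := (hw i l).trans (min_le_right _ _)
          have h2 := hc1 i l
          have h3 := hyy i l
          have h4 : |w i l - y i l| ≤ |w i l - c i l| + |c i l - y₀ i l| + |y₀ i l - y i l| := by
            have e : w i l - y i l = (w i l - c i l) + (c i l - y₀ i l) + (y₀ i l - y i l) := by
              ring
            rw [e]
            exact abs_add_three _ _ _
          show |w i l - y i l| ≤ δ
          linarith
        · have hmem : ((a, w) : (Fin s → ℝ) × Blk n ℝ) ∈ Metric.ball ((a₀, c) :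
              (Fin s → ℝ) × Blk n ℝ) ε := by
            rw [Metric.mem_ball, Prod.dist_eq, max_lt_iff]
            refine ⟨hqa.trans_le (min_le_left _ _), ?_⟩
            refine lt_of_le_of_lt ?_ (by linarith : ε / 2 < ε)
            refine (dist_pi_le_iff (by linarith)).2 fun i =>
              (dist_pi_le_iff (by linarith)).2 fun l => ?_
            rw [Real.dist_eq]
            exact (hw i l).trans (min_le_left _ _)
          obtain ⟨hb1, hb2⟩ := hball _ hmem
          have hb1' : |(∑ i, a i * aeval (w i) (F i)) / (a j * aeval (w j) (F j))| < 4 * δ' := hb1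
          exact solve (fun i => a i * aeval (w i) (F i)) k hk j hb2 δ hδ.le
            (by linarith) (by linarith)
  obtain ⟨η, hη, hq⟩ := key
  refine ⟨η, hη, fun a y h1 h2 h3 h4 => ?_⟩
  have hmem : ((a, y) : (Fin s → ℝ) × Blk n ℝ) ∈ K := ⟨h1, h2, h3, h4⟩
  exact hq _ hmem hmem

end Pool.Agent.H888.SF
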