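import Pool.Agent.H888.SF.Defs

/-!
# Project SF (helper888), task T5: selection of the integral vectors
-/

set_option autoImplicit false

namespace Pool.Agent.H888.SF

open Finset MvPolynomial

namespace SelN

/-- Chinese remainder theorem -/
theorem crt (T : Finset ℕ) (M : ℕ → ℤ) (r : ℕ → ℤ)
    (hM : ∀ p ∈ T, ∀ q ∈ T, p ≠ q → IsCoprime (M p) (M q)) :
    ∃ x : ℤ, ∀ p ∈ T, M p ∣ x - r p := by
  induction T using Finset.induction_on with
  | empty => exact ⟨0, fun p hp => absurd hp (Finset.notMem_empty p)⟩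
  | insert p T hp ih =>
    obtain ⟨x, hx⟩ := ih fun a ha b hb hab =>
      hM a (Finset.mem_insert_of_mem ha) b (Finset.mem_insert_of_mem hb) hab
    have hcop : IsCoprime (∏ q ∈ T, M q) (M p) := by
      refine IsCoprime.prod_left fun q hq => ?_
      exact hM q (Finset.mem_insert_of_mem hq) p (Finset.mem_insert_self _ _)
        (fun h => hp (h ▸ hq))
    obtain ⟨a, b, hab⟩ := hcop
    refine ⟨x + a * (∏ q ∈ T, M q) * (r p - x), fun q hq => ?_⟩
    rcases Finset.mem_insert.1 hq with h | h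
    · rw [h]
      refine ⟨b * (x - r p), ?_⟩
      have h1 : a * (∏ q ∈ T, M q) = 1 - b * M p := by linarith
      rw [h1]
      ring
    · have h1 : M q ∣ ∏ q ∈ T, M q := Finset.dvd_prod_of_mem M h
      have h2 : x + a * (∏ q ∈ T, M q) * (r p - x) - r q =
          (x - r q) + (∏ q ∈ T, M q) * (a * (r p - x)) := by ring
      rw [h2]
      exact dvd_add (hx q h) (Dvd.dvd.mul_right h1 _)

/-- congruent arguments give congruent values -/
theorem aeval_congr {m : ℕ} (F : MvPolynomial (Fin m) ℤ) (u v : Fin m → ℤ) (p : ℕ)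
    (h : ∀ l, (p : ℤ) ∣ v l - u l) : (p : ℤ) ∣ aeval v F - aeval u F := by
  have h1 := MvPolynomial.aeval_algebraMap_apply (ZMod p) u F
  have h2 := MvPolynomial.aeval_algebraMap_apply (ZMod p) v F
  have h3 : (algebraMap ℤ (ZMod p) ∘ u) = (algebraMap ℤ (ZMod p) ∘ v) := by
    funext l
    show ((u l : ℤ) : ZMod p) = ((v l : ℤ) : ZMod p)
    exact (ZMod.intCast_eq_intCast_iff_dvd_sub _ _ _).2 (h l)
  rw [h3, h2] at h1
  exact (ZMod.intCast_eq_intCast_iff_dvd_sub _ _ _).1 h1.symm

/-- one block -/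
theorem one_block {m : ℕ} (F : MvPolynomial (Fin m) ℤ) (u0 : Fin m → ℤ) (p0 : ℕ)
    (h0 : aeval u0 F ≠ (0 : ℤ)) (h1 : |aeval u0 F| ≤ (p0 : ℤ)) (E : ℕ) (c : ℕ → Fin m → ℤ)
    (y : Fin m → ℝ) (η : ℝ) (hη : 0 < η) (S : Finset ℕ) (hS : ∀ p ∈ S, p.Prime ∧ p0 < p) :
    ∃ (v : Fin m → ℤ) (lam : ℝ), 0 < lam ∧ (∀ l, |(v l : ℝ) / lam - y l| ≤ η) ∧
      (∀ p : ℕ, p.Prime → p ≤ p0 → ∀ l, (p : ℤ) ^ E ∣ v l - c p l) ∧
      aeval v F ≠ (0 : ℤ) ∧ ∀ p ∈ S, ¬ (p : ℤ) ∣ aeval v F := by
  obtain ⟨P0, hP0, hP0'⟩ := Nat.exists_infinite_primes (p0 + 1)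
  set T : Finset ℕ := (Finset.range (p0 + 1)).filter Nat.Prime ∪ insert P0 S with hT
  have hTp : ∀ p ∈ T, p.Prime := by
    intro p hp
    rw [hT, Finset.mem_union, Finset.mem_filter, Finset.mem_insert] at hp
    rcases hp with h | h | h
    · exact h.2
    · rw [h]; exact hP0'
    · exact (hS p h).1
  have hT1 : ∀ p : ℕ, p.Prime → p ≤ p0 → p ∈ T := by
    intro p hp hp0
    rw [hT, Finset.mem_union, Finset.mem_filter, Finset.mem_range]
    exact Or.inl ⟨by omega, hp⟩
  have hT2 : ∀ p ∈ insert P0 S, p ∈ T ∧ p0 < p := by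
    intro p hp
    refine ⟨Finset.mem_union_right _ hp, ?_⟩
    rcases Finset.mem_insert.1 hp with h | h
    · rw [h]; omega
    · exact (hS p h).2
  set M : ℕ → ℤ := fun p => if p ≤ p0 then (p : ℤ) ^ E else p with hM
  have hcop : ∀ p ∈ T, ∀ q ∈ T, p ≠ q → IsCoprime (M p) (M q) := by
    intro p hp q hq hpq
    have h2 : IsCoprime (p : ℤ) (q : ℤ) :=
      Nat.isCoprime_iff_coprime.2 ((Nat.coprime_primes (hTp p hp) (hTp q hq)).2 hpq)
    rw [hM]
    dsimp only
    split_ifs
    · exact h2.pow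
    · exact h2.pow_left
    · exact h2.pow_right
    · exact h2
  have hMpos : ∀ p ∈ T, 0 < M p := by
    intro p hp
    have h2 : (0 : ℤ) < p := by exact_mod_cast (hTp p hp).pos
    rw [hM]
    dsimp only
    split_ifs
    · exact pow_pos h2 _
    · exact h2
  choose v0 hv0 using fun l : Fin m => crt T M (fun p => if p ≤ p0 then c p l else u0 l) hcop
  set Q : ℤ := ∏ p ∈ T, M p with hQ
  have hQpos : 0 < Q := Finset.prod_pos hMpos
  have hQ' : (0 : ℝ) < Q := by exact_mod_cast hQpos
  have hlam : 0 < (Q : ℝ) / η + 1 := by positivity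
  set lam : ℝ := (Q : ℝ) / η + 1 with hlamdef
  set v : Fin m → ℤ := fun l => v0 l + Q * round ((lam * y l - v0 l) / Q) with hv
  have hvM : ∀ p ∈ T, ∀ l, M p ∣ v l - (if p ≤ p0 then c p l else u0 l) := by
    intro p hp l
    have h2 : v l - (if p ≤ p0 then c p l else u0 l) =
        (v0 l - (if p ≤ p0 then c p l else u0 l)) + Q * round ((lam * y l - v0 l) / Q) := by
      rw [hv]; ring
    rw [h2]
    exact dvd_add (hv0 l p hp) (Dvd.dvd.mul_right (Finset.dvd_prod_of_mem M hp) _)
  have hnd : ∀ p ∈ insert P0 S, ¬ (p : ℤ) ∣ aeval v F := by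
    intro p hp hdvd
    obtain ⟨hpT, hp0⟩ := hT2 p hp
    have h2 : ∀ l, (p : ℤ) ∣ v l - u0 l := by
      intro l
      have h3 := hvM p hpT l
      rw [if_neg (by omega : ¬ p ≤ p0)] at h3
      have h4 : M p = p := by rw [hM]; dsimp only; rw [if_neg (by omega : ¬ p ≤ p0)]
      rwa [h4] at h3
    have h3 := aeval_congr F u0 v p h2
    have h4 : (p : ℤ) ∣ aeval u0 F := by
      have h5 := dvd_sub hdvd h3
      rwa [sub_sub_cancel] at h5
    exact h0 (Int.eq_zero_of_abs_lt_dvd h4 (lt_of_le_of_lt h1 (by exact_mod_cast hp0)))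
  refine ⟨v, lam, hlam, fun l => ?_, fun p hp hp0 l => ?_, fun h => ?_, fun p hp => ?_⟩
  · have h2 : |(v l : ℝ) - lam * y l| ≤ Q := by
      have h3 := abs_sub_round ((lam * y l - v0 l) / (Q : ℝ))
      have h4 : (v l : ℝ) - lam * y l =
          -(Q * ((lam * y l - v0 l) / Q - round ((lam * y l - v0 l) / (Q : ℝ)))) := by
        rw [hv]
        push_cast
        field_simp
        ring
      rw [h4, abs_neg, abs_mul, abs_of_pos hQ']
      nlinarith
    have h3 : (v l : ℝ) / lam - y l = ((v l : ℝ) - lam * y l) / lam := by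
      field_simp
    rw [h3, abs_div, abs_of_pos hlam, div_le_iff₀ hlam]
    refine h2.trans ?_
    rw [hlamdef, mul_add, mul_div_cancel₀ _ hη.ne']
    linarith
  · have h2 := hvM p (hT1 p hp hp0) l
    rw [if_pos hp0] at h2
    have h4 : M p = (p : ℤ) ^ E := by rw [hM]; dsimp only; rw [if_pos hp0]
    rwa [h4] at h2
  · exact hnd P0 (Finset.mem_insert_self _ _) (h ▸ dvd_zero _)
  · exact hnd p (Finset.mem_insert_of_mem hp)

end SelN

/-- **(T5)** -/
theorem sel : S_sel := by
  intro s n F u0 p0 h0 h1 E c y η hη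
  have key : ∀ I : Finset (Fin s), ∃ (v : Blk n ℤ) (lam : Fin s → ℝ), (∀ i ∈ I, 0 < lam i) ∧
      (∀ i ∈ I, ∀ l, |(v i l : ℝ) / lam i - y i l| ≤ η) ∧
      (∀ p : ℕ, p.Prime → p ≤ p0 → ∀ i ∈ I, ∀ l, (p : ℤ) ^ E ∣ v i l - c p i l) ∧
      (∀ i ∈ I, aeval (v i) (F i) ≠ (0 : ℤ)) ∧
      ∀ p : ℕ, p.Prime → p0 < p → ∀ i ∈ I, ∀ j ∈ I, i ≠ j → (p : ℤ) ∣ aeval (v i) (F i) →
        ¬ (p : ℤ) ∣ aeval (v j) (F j) := by
    intro I
    induction I using Finset.induction_on with
    | empty =>
      refine ⟨fun i l => 0, fun i => 0, ?_, ?_, ?_, ?_, ?_⟩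
      · intro i hi; exact absurd hi (Finset.notMem_empty i)
      · intro i hi; exact absurd hi (Finset.notMem_empty i)
      · intro p _ _ i hi; exact absurd hi (Finset.notMem_empty i)
      · intro i hi; exact absurd hi (Finset.notMem_empty i)
      · intro p _ _ i hi; exact absurd hi (Finset.notMem_empty i)
    | insert i0 I hi0 ih =>
      obtain ⟨v, lam, a1, a2, a3, a4, a5⟩ := ih
      obtain ⟨w, mu, b1, b2, b3, b4, b5⟩ := SelN.one_block (F i0) (u0 i0) p0 (h0 i0) (h1 i0) E
        (fun p => c p i0) (y i0) η hη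
        ((I.biUnion fun j => (aeval (v j) (F j)).natAbs.primeFactors).filter fun p => p0 < p)
        (by
          intro p hp
          rw [Finset.mem_filter, Finset.mem_biUnion] at hp
          obtain ⟨⟨j, _, hj⟩, hp0⟩ := hp
          exact ⟨(Nat.mem_primeFactors.1 hj).1, hp0⟩)
      have b6 : ∀ p : ℕ, p.Prime → p0 < p → ∀ j ∈ I, (p : ℤ) ∣ aeval (v j) (F j) →
          ¬ (p : ℤ) ∣ aeval w (F i0) := by
        intro p hp hp0 j hj hdvd
        refine b5 p ?_
        rw [Finset.mem_filter, Finset.mem_biUnion]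
        exact ⟨⟨j, hj, Nat.mem_primeFactors.2 ⟨hp, Int.natCast_dvd.1 hdvd,
          Int.natAbs_ne_zero.2 (a4 j hj)⟩⟩, hp0⟩
      have hne : ∀ i ∈ I, i ≠ i0 := fun i hi h => hi0 (h ▸ hi)
      refine ⟨Function.update v i0 w, Function.update lam i0 mu, ?_, ?_, ?_, ?_, ?_⟩
      · intro i hi
        rcases Finset.mem_insert.1 hi with h | h
        · subst h
          rw [Function.update_self]
          exact b1
        · rw [Function.update_of_ne (hne i h)]
          exact a1 i h
      · intro i hi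
        rcases Finset.mem_insert.1 hi with h | h
        · subst h
          rw [Function.update_self, Function.update_self]
          exact b2
        · rw [Function.update_of_ne (hne i h), Function.update_of_ne (hne i h)]
          exact a2 i h
      · intro p hp hp0 i hi
        rcases Finset.mem_insert.1 hi with h | h
        · subst h
          rw [Function.update_self]
          exact b3 p hp hp0
        · rw [Function.update_of_ne (hne i h)]
          exact a3 p hp hp0 i h
      · intro i hi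
        rcases Finset.mem_insert.1 hi with h | h
        · subst h
          rw [Function.update_self]
          exact b4
        · rw [Function.update_of_ne (hne i h)]
          exact a4 i h
      · intro p hp hp0 i hi j hj hij
        rcases Finset.mem_insert.1 hi with h | h
        · rcases Finset.mem_insert.1 hj with h' | h'
          · exact absurd (h.trans h'.symm) hij
          · subst h
            rw [Function.update_self, Function.update_of_ne (hne j h')]
            intro hd1 hd2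
            exact b6 p hp hp0 j h' hd2 hd1
        · rcases Finset.mem_insert.1 hj with h' | h'
          · subst h'
            rw [Function.update_self, Function.update_of_ne (hne i h)]
            exact b6 p hp hp0 i h
          · rw [Function.update_of_ne (hne i h), Function.update_of_ne (hne j h')]
            exact a5 p hp hp0 i h j h' hij
  obtain ⟨v, lam, a1, a2, a3, a4, a5⟩ := key Finset.univ
  exact ⟨v, lam, fun i => a1 i (Finset.mem_univ i), fun i => a2 i (Finset.mem_univ i),
    fun p hp hp0 i => a3 p hp hp0 i (Finset.mem_univ i), fun i => a4 i (Finset.mem_univ i),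
    fun p hp hp0 i j => a5 p hp hp0 i (Finset.mem_univ i) j (Finset.mem_univ j)⟩

end Pool.Agent.H888.SF
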