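import Pool.Agent.H888.SF.Bound
import Pool.Agent.H888.SF.T1
import Pool.Agent.H888.SF.T2
import Pool.Agent.H888.SF.T3
import Pool.Agent.H888.SF.T4
import Pool.Agent.H888.SF.T5

set_option linter.unusedVariables false
set_option linter.unusedSectionVars false
set_option linter.style.haveILetI false

namespace Pool.Agent.H888.SF

open Finset MvPolynomial Pool.Agent.H888.DH Filter Topology

/-- Nontrivial zeros of `∑ a_i F_i(y_i)` over a field. -/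
def Zer {s : ℕ} {n : Fin s → ℕ} (F : ∀ i, MvPolynomial (Fin (n i)) ℤ) (a : Fin s → ℤ) {K : Type}
    [Field K] (y : Blk n K) : Prop := y ≠ 0 ∧ ∑ i, (a i : K) * aeval (y i) (F i) = 0

/-- Everywhere locally soluble. -/
def ELSF {s : ℕ} {n : Fin s → ℕ} (F : ∀ i, MvPolynomial (Fin (n i)) ℤ) (a : Fin s → ℤ) : Prop :=
  (∃ y : Blk n ℝ, Zer F a y) ∧ ∀ (p : ℕ) [Fact p.Prime], ∃ u : Blk n ℚ_[p], Zer F a u

/-- Projective closeness. -/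
def CloseTo (δ : ℝ) {s : ℕ} {n : Fin s → ℕ} {K : Type} [NormedField K] (z : Blk n K) (x : Blk n ℤ) :
    Prop := ∃ c : K, c ≠ 0 ∧ ∀ i l, ‖z i l - c * (x i l : K)‖ ≤ δ * ‖z‖

/-- Weak approximation to precision `m`, by points of height at most `H ^ (1/2)`. -/
def WA {s : ℕ} {n : Fin s → ℕ} (F : ∀ i, MvPolynomial (Fin (n i)) ℤ) (m H : ℕ) (a : Fin s → ℤ) : Prop :=
  ∀ (y : Blk n ℝ) (u : ∀ (p : ℕ) [Fact p.Prime], Blk n ℚ_[p]), Zer F a y →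
    (∀ (p : ℕ) [Fact p.Prime], p ≤ m → Zer F a (u p)) →
    ∃ x : Blk n ℤ, x ≠ 0 ∧ ∑ i, a i * aeval (x i) (F i) = (0 : ℤ) ∧ (∀ i l, (x i l) ^ 2 ≤ (H : ℤ)) ∧
      CloseTo (1 / m) y x ∧ ∀ (p : ℕ) [Fact p.Prime], p ≤ m → CloseTo ((p : ℝ) ^ (-(m : ℤ))) (u p) x

theorem hom_aeval {R S : Type*} [CommRing R] [CommRing S] (f : R →+* S) {m : ℕ}
    (F : MvPolynomial (Fin m) ℤ) (z : Fin m → R) : f (aeval z F) = aeval (fun l => f (z l)) F := by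
  rw [aeval_def, aeval_def, eval₂_eq', eval₂_eq', map_sum]
  apply Finset.sum_congr rfl
  intro d _
  rw [map_mul, map_prod]
  simp

theorem exists_max_coord {s : ℕ} {n : Fin s → ℕ} {K : Type} [NormedField K] (y : Blk n K) (hy : y ≠ 0) :
    ∃ i l, y i l ≠ 0 ∧ ∀ i' l', ‖y i' l'‖ ≤ ‖y i l‖ := by
  classical
  have hne : ∃ i l, y i l ≠ 0 := by
    by_contra hc
    push Not at hc
    exact hy (funext fun i => funext fun l => hc i l)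
  obtain ⟨i0, l0, h0⟩ := hne
  haveI : Nonempty (Σ i : Fin s, Fin (n i)) := ⟨⟨i0, l0⟩⟩
  obtain ⟨⟨i, l⟩, h⟩ := Finite.exists_max (fun q : (Σ i : Fin s, Fin (n i)) => ‖y q.1 q.2‖)
  refine ⟨i, l, ?_, fun i' l' => h ⟨i', l'⟩⟩
  intro h1
  have h2 := h ⟨i0, l0⟩
  simp only at h2
  rw [h1, norm_zero] at h2
  exact h0 (norm_le_zero_iff.mp h2)

theorem norm_coord_le {s : ℕ} {n : Fin s → ℕ} {K : Type} [NormedField K] (y : Blk n K) (i : Fin s) (l : Fin (n i)) :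
    ‖y i l‖ ≤ ‖y‖ := (norm_le_pi_norm (y i) l).trans (norm_le_pi_norm y i)

theorem val_scale {s k : ℕ} {n : Fin s → ℕ} {F : ∀ i, MvPolynomial (Fin (n i)) ℤ}
    (hF : ∀ i, (F i).IsHomogeneous k) {R : Type*} [CommRing R] (a : Fin s → R) (c : R) (y : Blk n R) :
    val F a (fun i l => c * y i l) = c ^ k * val F a y := by
  unfold val
  rw [Finset.mul_sum]
  apply Finset.sum_congr rfl
  intro i _
  rw [aeval_scale (hF i)]; ring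

theorem normR {s k : ℕ} {n : Fin s → ℕ} {F : ∀ i, MvPolynomial (Fin (n i)) ℤ}
    (hF : ∀ i, (F i).IsHomogeneous k) (a : Fin s → ℤ) (y : Blk n ℝ) (hy : Zer F a y) :
    ∃ (μ : ℝ) (y' : Blk n ℝ), 0 < μ ∧ μ ≤ ‖y‖ ∧ (∀ i l, y i l = μ * y' i l) ∧ (∀ i l, |y' i l| ≤ 1) ∧
      (∃ i l, |y' i l| = 1) ∧ val F (fun i => (a i : ℝ)) y' = 0 := by
  obtain ⟨hy0, hy1⟩ := hy
  obtain ⟨i, l, h1, h2⟩ := exists_max_coord y hy0
  have hμ : 0 < |y i l| := abs_pos.mpr h1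
  refine ⟨|y i l|, fun i' l' => |y i l|⁻¹ * y i' l', hμ, norm_coord_le y i l, ?_, ?_, ⟨i, l, ?_⟩, ?_⟩
  · intro i' l'
    rw [← mul_assoc, mul_inv_cancel₀ hμ.ne', one_mul]
  · intro i' l'
    rw [abs_mul, abs_inv, abs_abs, inv_mul_le_iff₀ hμ, mul_one]
    exact h2 i' l'
  · rw [abs_mul, abs_inv, abs_abs, inv_mul_cancel₀ hμ.ne']
  · rw [val_scale hF]
    have : val F (fun i => (a i : ℝ)) y = 0 := hy1
    rw [this, mul_zero]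

theorem normP {s k p : ℕ} [hp : Fact p.Prime] {n : Fin s → ℕ} {F : ∀ i, MvPolynomial (Fin (n i)) ℤ}
    (hF : ∀ i, (F i).IsHomogeneous k) (a : Fin s → ℤ) (y : Blk n ℚ_[p]) (hy : Zer F a y) :
    ∃ (μ : ℚ_[p]) (y' : Blk n ℤ_[p]), μ ≠ 0 ∧ ‖μ‖ ≤ ‖y‖ ∧ (∀ i l, y i l = μ * (y' i l : ℚ_[p])) ∧
      (∃ i l, IsUnit (y' i l)) ∧ val F (fun i => (a i : ℤ_[p])) y' = 0 := by
  obtain ⟨hy0, hy1⟩ := hy
  obtain ⟨i, l, h1, h2⟩ := exists_max_coord y hy0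
  have hμ : 0 < ‖y i l‖ := norm_pos_iff.mpr h1
  have hex : ∀ i' l', ∃ z : ℤ_[p], (z : ℚ_[p]) = (y i l)⁻¹ * y i' l' := by
    intro i' l'
    refine ⟨⟨(y i l)⁻¹ * y i' l', ?_⟩, rfl⟩
    rw [norm_mul, norm_inv, inv_mul_le_iff₀ hμ, mul_one]
    exact h2 i' l'
  choose z hz using hex
  refine ⟨y i l, z, h1, norm_coord_le y i l, ?_, ⟨i, l, ?_⟩, ?_⟩
  · intro i' l'
    rw [hz, ← mul_assoc, mul_inv_cancel₀ h1, one_mul]
  · have : z i l = 1 := by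
      apply Subtype.ext
      rw [hz, inv_mul_cancel₀ h1, PadicInt.coe_one]
    rw [this]; exact isUnit_one
  · apply Subtype.ext
    rw [PadicInt.coe_zero]
    have h3 : ((val F (fun i => (a i : ℤ_[p])) z : ℤ_[p]) : ℚ_[p]) =
        val F (fun i => (a i : ℚ_[p])) (fun i' l' => (y i l)⁻¹ * y i' l') := by
      unfold val
      rw [PadicInt.coe_sum]
      apply Finset.sum_congr rfl
      intro j _
      rw [PadicInt.coe_mul, PadicInt.coe_intCast]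
      congr 1
      have h4 := hom_aeval (PadicInt.Coe.ringHom (p := p)) (F j) (z j)
      have h5 : (fun l' => (PadicInt.Coe.ringHom (p := p)) (z j l')) = fun l' => (y i l)⁻¹ * y j l' := by
        funext l'
        exact hz j l'
      rw [h5] at h4
      exact h4
    rw [h3, val_scale hF]
    have : val F (fun i => (a i : ℚ_[p])) y = 0 := hy1
    rw [this, mul_zero]

theorem wa_of_approx {s k : ℕ} {n : Fin s → ℕ} {F : ∀ i, MvPolynomial (Fin (n i)) ℤ}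
    (hF : ∀ i, (F i).IsHomogeneous k) (m H : ℕ) (hm : 1 ≤ m) (a : Fin s → ℤ) (hels : ELSF F a)
    (h : ¬ WA F m H a) :
    ∃ (y : Blk n ℝ) (u : ∀ p : ℕ, ∀ _ : Fact p.Prime, Blk n ℤ_[p]),
      ((∀ i l, |y i l| ≤ 1) ∧ (∃ i l, |y i l| = 1) ∧ val F (fun i => (a i : ℝ)) y = 0) ∧
      (∀ (p : ℕ) (hp : Fact p.Prime), (∃ i l, IsUnit (u p hp i l)) ∧
        val F (fun i => (a i : ℤ_[p])) (u p hp) = 0) ∧
      ¬ ApproxSF F m H a y u := by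
  classical
  unfold WA at h
  push Not at h
  obtain ⟨y, u, hy, hu, hno⟩ := h
  obtain ⟨μ, y', hμ, hμy, hyy, hy1, hy2, hy3⟩ := normR hF a y hy
  have hex : ∀ (p : ℕ) (hp : Fact p.Prime), ∃ (ν : ℚ_[p]) (u' : Blk n ℤ_[p]), ν ≠ 0 ∧
      (∃ i l, IsUnit (u' i l)) ∧ val F (fun i => (a i : ℤ_[p])) u' = 0 ∧
      (p ≤ m → ‖ν‖ ≤ ‖u p‖ ∧ ∀ i l, u p i l = ν * (u' i l : ℚ_[p])) := by
    intro p hp
    by_cases hpm : p ≤ m
    · obtain ⟨ν, u', h1, h2, h3, h4, h5⟩ := normP hF a (u p) (hu p hpm)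
      exact ⟨ν, u', h1, h4, h5, fun _ => ⟨h2, h3⟩⟩
    · obtain ⟨w, hw⟩ := hels.2 p
      obtain ⟨ν, u', h1, h2, h3, h4, h5⟩ := normP hF a w hw
      exact ⟨ν, u', h1, h4, h5, fun h => absurd h hpm⟩
  choose ν u' hν hu1 hu2 hu3 using hex
  refine ⟨y', u', ⟨hy1, hy2, hy3⟩, fun p hp => ⟨hu1 p hp, hu2 p hp⟩, ?_⟩
  rintro ⟨x, hx0, hx1, hx2, ⟨c, hc, hcx⟩, hxp⟩
  have hcl : CloseTo (1 / m) y x := by
    refine ⟨μ * c, mul_ne_zero hμ.ne' hc, fun i l => ?_⟩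
    have e1 : y i l - μ * c * (x i l : ℝ) = -(μ * (c * (x i l : ℝ) - y' i l)) := by rw [hyy i l]; ring
    rw [e1, norm_neg, Real.norm_eq_abs, abs_mul, abs_of_pos hμ]
    have h1 := hcx i l
    calc μ * |c * (x i l : ℝ) - y' i l| ≤ ‖y‖ * (1 / m) := by gcongr
      _ = _ := by ring
  obtain ⟨p, hp, hpm, hnc⟩ := hno x hx0 hx1 hx2 hcl
  apply hnc
  obtain ⟨c', hc', hcx'⟩ := hxp p hp hpm
  obtain ⟨h1, h2⟩ := hu3 p hp hpm
  refine ⟨ν p hp * c', mul_ne_zero (hν p hp) hc', fun i l => ?_⟩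
  have e1 : u p i l - ν p hp * c' * (x i l : ℚ_[p]) = -(ν p hp * (c' * (x i l : ℚ_[p]) - u' p hp i l)) := by
    rw [h2 i l]; ring
  rw [e1, norm_neg, norm_mul]
  have h3 := hcx' i l
  calc ‖ν p hp‖ * ‖c' * (x i l : ℚ_[p]) - u' p hp i l‖ ≤ ‖u p‖ * (p : ℝ) ^ (-(m : ℤ)) := by gcongr
    _ = _ := by ring

/-- **The bound for the exceptional set.** -/
theorem sf_final {k r : ℕ} {n : Fin (r + 1) → ℕ} {F : ∀ i, MvPolynomial (Fin (n i)) ℤ}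
    (hA : Adm k (r + 1) n F) (hk : 3 ≤ k) (hr : 2 * k + 1 ≤ r) (m : ℕ) (hm : 1 ≤ m) (ε : ℝ) (hε : 0 < ε) :
    ∃ H0 : ℕ, ∀ H : ℕ, H0 ≤ H → ∀ S : Finset (Fin (r + 1) → ℤ),
      (∀ a ∈ S, a ∈ boxA (r + 1) H ∧ (∀ i, a i ≠ 0) ∧ ELSF F a ∧ ¬ WA F m H a) →
      (S.card : ℝ) ≤ ε * (H : ℝ) ^ (r + 1) := by
  obtain ⟨H0, hH0⟩ := sf_bound (recP pertP) (recR pertR) sel hA hk hr m hm ε hε
  refine ⟨H0, fun H hH S hS => hH0 H hH S ?_⟩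
  intro a ha
  obtain ⟨h1, h2, h3, h4⟩ := hS a ha
  exact ⟨h1, h2, wa_of_approx hA.hom m H hm a h3 h4⟩

end Pool.Agent.H888.SF
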