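import Pool.Agent.H888.SF.Transfer

set_option linter.unusedVariables false
set_option linter.unusedSectionVars false
set_option linter.style.haveILetI false

namespace Pool.Agent.H888.SF

open Finset MvPolynomial Pool.Agent.H888.DH

theorem card_filter_le_one {s : ℕ} (P : Fin s → Prop) [DecidablePred P]
    (h : ∀ o o', o ≠ o' → P o → ¬ P o') : (Finset.univ.filter P).card ≤ 1 := by
  rw [Finset.card_le_one]
  intro o ho o' ho'
  rw [Finset.mem_filter] at ho ho'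
  by_contra hne
  exact h o o' hne ho.2 ho'.2

theorem sol_large {k s : ℕ} (hk : 1 ≤ k) (hs : k + 3 ≤ s) (a f : Fin s → ℤ) (p : ℕ) [hp : Fact p.Prime]
    (hpk : ¬ p ∣ k) (ha : ∀ o o', o ≠ o' → (p : ℤ) ∣ a o → ¬ (p : ℤ) ∣ a o')
    (hf : ∀ o o', o ≠ o' → (p : ℤ) ∣ f o → ¬ (p : ℤ) ∣ f o') : Sol ℚ_[p] k s (fun i => a i * f i) := by
  classical
  set U := (Finset.univ : Finset (Fin s)).filter (fun i => ¬ (p : ℤ) ∣ a i * f i) with hU
  apply padic_sol_of_units k s hk hpk _ U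
  · have h1 := card_filter_le_one (fun i => (p : ℤ) ∣ a i) ha
    have h2 := card_filter_le_one (fun i => (p : ℤ) ∣ f i) hf
    have h3 : (Finset.univ : Finset (Fin s)) ⊆ U ∪ ((Finset.univ.filter (fun i => (p : ℤ) ∣ a i)) ∪
        (Finset.univ.filter (fun i => (p : ℤ) ∣ f i))) := by
      intro i _
      simp only [hU, Finset.mem_union, Finset.mem_filter, Finset.mem_univ, true_and]
      by_cases h : (p : ℤ) ∣ a i * f i
      · right
        exact (Nat.prime_iff_prime_int.mp hp.out).dvd_or_dvd h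
      · left; exact h
    have h4 := (Finset.card_le_card h3).trans (Finset.card_union_le _ _)
    have h5 := Finset.card_union_le (Finset.univ.filter (fun i => (p : ℤ) ∣ a i))
        (Finset.univ.filter (fun i => (p : ℤ) ∣ f i))
    rw [Finset.card_univ, Fintype.card_fin] at h4
    omega
  · intro i hi
    rw [hU, Finset.mem_filter] at hi
    exact hi.2

theorem sol_of_unit_zero {k s : ℕ} (p : ℕ) [hp : Fact p.Prime] (b : Fin s → ℤ) (x : Fin s → ℤ_[p])
    (hx : ∃ i, IsUnit (x i)) (h : ∑ i, (b i : ℤ_[p]) * x i ^ k = 0) : Sol ℚ_[p] k s b := by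
  obtain ⟨i, hi⟩ := hx
  refine ⟨fun i => (x i : ℚ_[p]), ?_, ?_⟩
  · intro h0
    have h1 := congrFun h0 i
    simp only [Pi.zero_apply] at h1
    have h2 : x i = 0 := by
      apply Subtype.ext
      rw [PadicInt.coe_zero]
      exact h1
    rw [h2] at hi
    exact not_isUnit_zero hi
  · have h1 : ((∑ i, (b i : ℤ_[p]) * x i ^ k : ℤ_[p]) : ℚ_[p]) = 0 := by rw [h, PadicInt.coe_zero]
    rw [PadicInt.coe_sum] at h1
    rw [← h1]
    apply Finset.sum_congr rfl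
    intro j _
    rw [PadicInt.coe_mul, PadicInt.coe_pow, PadicInt.coe_intCast]

/-- The finite index type of the recipes. -/
abbrev Key {s : ℕ} (n : Fin s → ℕ) (p0 Q G : ℕ) :=
  (Fin (p0 + 1) → ∀ i : Fin s, Fin (n i) → Fin Q) × (∀ i : Fin s, Fin (n i) → Fin G)

/-- The residues of a key. -/
def Key.res {s : ℕ} {n : Fin s → ℕ} {p0 Q G : ℕ} (κ : Key n p0 Q G) (p : ℕ) : Blk n ℤ :=
  if h : p < p0 + 1 then fun i l => ((κ.1 ⟨p, h⟩ i l : ℕ) : ℤ) else fun _ _ => 0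

/-- The real direction of a key, a grid point in the box `[-2, …)`, of mesh `1 / g`. -/
noncomputable def Key.dir {s : ℕ} {n : Fin s → ℕ} {p0 Q G : ℕ} (κ : Key n p0 Q G) (g : ℕ) : Blk n ℝ :=
  fun i l => ((κ.2 i l : ℕ) : ℝ) / g - 2

theorem exists_key {s : ℕ} {n : Fin s → ℕ} (p0 E g : ℕ) (hg : 1 ≤ g)
    (cp : ∀ p : ℕ, ∀ _ : Fact p.Prime, Blk n ℤ_[p]) (cr : Blk n ℝ) (hcr : ∀ i l, |cr i l| ≤ 2) :
    ∃ κ : Key n p0 ((p0 + 1) ^ E) (4 * g + 1),
      (∀ (p : ℕ) (hp : Fact p.Prime), p ≤ p0 → ∀ i l,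
        (p : ℤ_[p]) ^ E ∣ ((κ.res p i l : ℤ) : ℤ_[p]) - cp p hp i l) ∧
      ∀ i l, |κ.dir g i l - cr i l| ≤ 1 / g := by
  classical
  have hgR : (0 : ℝ) < g := by exact_mod_cast (by omega : 0 < g)
  have h1 : ∀ (p : Fin (p0 + 1)) (i : Fin s) (l : Fin (n i)), ∃ t : Fin ((p0 + 1) ^ E),
      ∀ hp : Fact (p : ℕ).Prime, ((p : ℕ) : ℤ_[(p : ℕ)]) ^ E ∣ (((t : ℕ) : ℤ) : ℤ_[(p : ℕ)]) - cp p hp i l := by
    intro p i l
    by_cases hp : (p : ℕ).Prime
    · haveI : Fact (p : ℕ).Prime := ⟨hp⟩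
      have hlt : (cp p ⟨hp⟩ i l).appr E < (p0 + 1) ^ E := by
        have h2 := PadicInt.appr_lt (cp p ⟨hp⟩ i l) E
        refine h2.trans_le (Nat.pow_le_pow_left ?_ E)
        have := p.isLt
        omega
      refine ⟨⟨(cp p ⟨hp⟩ i l).appr E, hlt⟩, fun hp' => ?_⟩
      have h3 := PadicInt.appr_spec E (cp p ⟨hp⟩ i l)
      rw [Ideal.mem_span_singleton] at h3
      have h4 := (dvd_neg.mpr h3)
      rw [neg_sub] at h4
      simpa using h4
    · exact ⟨⟨0, by positivity⟩, fun hp' => absurd hp'.out hp⟩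
  have h2 : ∀ (i : Fin s) (l : Fin (n i)), ∃ t : Fin (4 * g + 1), |((t : ℕ) : ℝ) / g - 2 - cr i l| ≤ 1 / g := by
    intro i l
    have hb := abs_le.mp (hcr i l)
    have h0 : 0 ≤ (cr i l + 2) * g := by
      apply mul_nonneg _ hgR.le
      linarith
    have h4 : (cr i l + 2) * g ≤ 4 * g := by nlinarith
    have hfl : ⌊(cr i l + 2) * g⌋₊ ≤ 4 * g := by
      have := Nat.floor_le h0
      have h5 : (⌊(cr i l + 2) * g⌋₊ : ℝ) ≤ ((4 * g : ℕ) : ℝ) := by push_cast; linarith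
      exact_mod_cast h5
    refine ⟨⟨⌊(cr i l + 2) * g⌋₊, by omega⟩, ?_⟩
    simp only
    have e1 := Nat.floor_le h0
    have e2 := Nat.lt_floor_add_one ((cr i l + 2) * g)
    have e3 : ((⌊(cr i l + 2) * g⌋₊ : ℝ)) / g - 2 - cr i l = ((⌊(cr i l + 2) * g⌋₊ : ℝ) - (cr i l + 2) * g) / g := by
      field_simp
      ring
    rw [e3, abs_div, abs_of_pos hgR]
    gcongr
    rw [abs_le]
    constructor <;> linarith
  choose t1 ht1 using h1
  choose t2 ht2 using h2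
  refine ⟨(t1, t2), ?_, ?_⟩
  · intro p hp hpp i l
    have hlt : p < p0 + 1 := by omega
    unfold Key.res
    rw [dif_pos hlt]
    exact ht1 ⟨p, hlt⟩ i l hp
  · intro i l
    unfold Key.dir
    exact ht2 i l

end Pool.Agent.H888.SF
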