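import Pool.Agent.H888.SF.Final

set_option linter.unusedVariables false
set_option linter.unusedSectionVars false
set_option linter.style.haveILetI false

namespace Pool.Agent.H888.SF

open Finset MvPolynomial Pool.Agent.H888.DH Filter Topology

theorem zer_of_diag {s k : ℕ} (hk : 1 ≤ k) {n : Fin s → ℕ} {F : ∀ i, MvPolynomial (Fin (n i)) ℤ}
    (hF : ∀ i, (F i).IsHomogeneous k) (u0 : Blk n ℤ) (hu0 : ∀ i, aeval (u0 i) (F i) ≠ (0 : ℤ))
    (b : Fin s → ℤ) {K : Type} [Field K] [CharZero K] (h : Sol K k s b) :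
    ∃ y : Blk n K, Zer F (fun i => b i * (aeval (u0 i) (F i)) ^ (k - 1)) y := by
  obtain ⟨x, hx0, hx⟩ := h
  have hc : ∀ i, ((aeval (u0 i) (F i) : ℤ) : K) ≠ 0 := by
    intro i
    exact_mod_cast hu0 i
  refine ⟨fun i l => (x i / ((aeval (u0 i) (F i) : ℤ) : K)) * (u0 i l : K), ?_, ?_⟩
  · intro h0
    apply hx0
    funext i
    have hu : u0 i ≠ 0 := by
      intro h1
      apply hu0 i
      have h2 := aeval_scale (hF i) (0 : ℤ) (u0 i)
      rw [zero_pow (by omega), zero_mul] at h2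
      rw [← h2]
      congr 2
      funext l
      rw [h1]; simp
    obtain ⟨l, hl⟩ := Function.ne_iff.mp hu
    have h1 := congrFun (congrFun h0 i) l
    simp only [Pi.zero_apply, mul_eq_zero, div_eq_zero_iff] at h1
    have hl' : ((u0 i l : ℤ) : K) ≠ 0 := by exact_mod_cast hl
    rcases h1 with (h1 | h1) | h1
    · exact h1
    · exact absurd h1 (hc i)
    · exact absurd h1 hl'
  · rw [← hx]
    apply Finset.sum_congr rfl
    intro i _
    rw [aeval_scale (hF i), aeval_intCast]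
    push_cast
    rw [div_pow]
    have h1 := hc i
    obtain ⟨k', rfl⟩ : ∃ k', k = k' + 1 := ⟨k - 1, by omega⟩
    rw [Nat.add_sub_cancel]
    field_simp
    ring

theorem sf_pos {k r' : ℕ} {n : Fin (r' + 2) → ℕ} {F : ∀ i, MvPolynomial (Fin (n i)) ℤ}
    (hA : Adm k (r' + 2) n F) (hk : 3 ≤ k) (hr : 2 * k ≤ r') :
    ∃ c : ℝ, 0 < c ∧ ∃ H1 : ℕ, ∀ H : ℕ, H1 ≤ H → ∃ S : Finset (Fin (r' + 2) → ℤ),
      (∀ a ∈ S, a ∈ boxA (r' + 2) H ∧ (∀ o, a o ≠ 0) ∧ ELSF F a) ∧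
      c * (2 * H + 1) ^ (r' + 2) ≤ S.card := by
  classical
  have hex := fun i => exists_int_ne_zero (form_ne_zero (hA.npos i) (hA.smooth i))
  choose u0 hu0 using hex
  obtain ⟨c, hc, H1, hH1⟩ := positive_prop k r' hk hr
  obtain ⟨C0, hC0⟩ := exists_nat_bound (fun i : Fin (r' + 2) => ((|(aeval (u0 i) (F i)) ^ (k - 1)| : ℤ) : ℝ))
  set C := C0 + 1 with hC
  have hC1 : 1 ≤ C := by omega
  have hCR : (1 : ℝ) ≤ C := by exact_mod_cast hC1
  have hCb : ∀ i, |(aeval (u0 i) (F i)) ^ (k - 1)| ≤ (C : ℤ) := by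
    intro i
    have h1 := hC0 i
    have h2 : |(aeval (u0 i) (F i)) ^ (k - 1)| ≤ (C0 : ℤ) := by exact_mod_cast h1
    rw [hC]; push_cast; linarith
  refine ⟨c / (2 * C) ^ (r' + 2), by positivity, max (C * H1) (C + 1), ?_⟩
  intro H hH
  have hHC : C * H1 ≤ H := (le_max_left _ _).trans hH
  have hHC2 : C + 1 ≤ H := (le_max_right _ _).trans hH
  obtain ⟨S, hS, hSc⟩ := hH1 (H / C) (by
    rw [Nat.le_div_iff_mul_le (by omega)]
    linarith [Nat.mul_comm C H1])
  set T : (Fin (r' + 2) → ℤ) → (Fin (r' + 2) → ℤ) := fun b i => b i * (aeval (u0 i) (F i)) ^ (k - 1) with hT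
  have hinj : Function.Injective T := by
    intro a b h
    funext i
    have h1 := congrFun h i
    simp only [hT] at h1
    exact mul_right_cancel₀ (pow_ne_zero _ (hu0 i)) h1
  refine ⟨S.image T, ?_, ?_⟩
  · intro a ha
    rw [Finset.mem_image] at ha
    obtain ⟨b, hb, rfl⟩ := ha
    obtain ⟨h1, h2, h3, h4⟩ := hS b hb
    refine ⟨?_, ?_, ?_, ?_⟩
    · rw [mem_boxA] at h1 ⊢
      intro i
      simp only [hT]
      rw [abs_mul]
      have h5 := h1 i
      have h6 := hCb i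
      calc |b i| * |(aeval (u0 i) (F i)) ^ (k - 1)| ≤ ((H / C : ℕ) : ℤ) * C := by gcongr
        _ ≤ H := by exact_mod_cast Nat.div_mul_le_self H C
    · intro o
      simp only [hT]
      exact mul_ne_zero (h2 o) (pow_ne_zero _ (hu0 o))
    · exact zer_of_diag (by omega) hA.hom u0 hu0 b h4
    · intro p hp
      exact zer_of_diag (by omega) hA.hom u0 hu0 b (h3 p hp)
  · rw [Finset.card_image_of_injective S hinj]
    refine le_trans ?_ hSc
    have h1 : (2 * (H : ℝ) + 1) / (2 * C) ≤ 2 * ((H / C : ℕ) : ℝ) + 1 := by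
      have h2 : (H : ℝ) < ((H / C : ℕ) : ℝ) * C + C := by
        have h3 := Nat.lt_div_mul_add (a := H) (b := C) (by omega)
        exact_mod_cast h3
      have h4 : (C : ℝ) + 1 ≤ H := by exact_mod_cast hHC2
      rw [div_le_iff₀ (by positivity)]
      nlinarith
    calc c / (2 * C) ^ (r' + 2) * (2 * (H : ℝ) + 1) ^ (r' + 2)
        = c * ((2 * (H : ℝ) + 1) / (2 * C)) ^ (r' + 2) := by rw [div_pow]; ring
      _ ≤ c * (2 * ((H / C : ℕ) : ℝ) + 1) ^ (r' + 2) := by gcongr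

/-- The everywhere locally soluble members of height at most `H`. -/
def elsF {s : ℕ} {n : Fin s → ℕ} (F : ∀ i, MvPolynomial (Fin (n i)) ℤ) (H : ℕ) : Set (Fin s → ℤ) :=
  {a | (∀ i, a i ≠ 0 ∧ |a i| ≤ (H : ℤ)) ∧ ELSF F a}

/-- General form: a property of the coefficient vectors which fails for few vectors. -/
theorem ratio_of_bound {k r' : ℕ} {n : Fin (r' + 2) → ℕ} {F : ∀ i, MvPolynomial (Fin (n i)) ℤ}
    (hA : Adm k (r' + 2) n F) (hk : 3 ≤ k) (hs : 2 * k + 2 ≤ r' + 2) (m : ℕ) (hm : 1 ≤ m) (ε : ℝ) (hε : 0 < ε)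
    (P : ℕ → (Fin (r' + 2) → ℤ) → Prop) (hP : ∀ H a, a ∈ elsF F H → WA F m H a → P H a) :
    ∃ H2 : ℕ, ∀ H : ℕ, H2 ≤ H →
      |(({a | a ∈ elsF F H ∧ P H a} : Set (Fin (r' + 2) → ℤ)).ncard : ℝ) / ((elsF F H).ncard : ℝ) - 1| < ε := by
  classical
  obtain ⟨c, hc, H1, hpos⟩ := sf_pos hA hk (by omega)
  obtain ⟨H0, hbd⟩ := sf_final hA hk (by omega) m hm (ε * c / 2) (by positivity)
  refine ⟨max H0 H1, ?_⟩
  intro H hH
  have hH0 : H0 ≤ H := (le_max_left _ _).trans hH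
  have hH1 : H1 ≤ H := (le_max_right _ _).trans hH
  set E : Finset (Fin (r' + 2) → ℤ) :=
    (boxA (r' + 2) H).filter (fun a => (∀ i, a i ≠ 0) ∧ ELSF F a) with hE
  set G : Finset (Fin (r' + 2) → ℤ) := E.filter (fun a => P H a) with hG
  set N : Finset (Fin (r' + 2) → ℤ) := E.filter (fun a => ¬ P H a) with hN
  have hEset : elsF F H = (E : Set (Fin (r' + 2) → ℤ)) := by
    ext a
    rw [hE]
    simp only [elsF, Set.mem_ofPred_eq, Finset.coe_filter, mem_boxA]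
    constructor
    · rintro ⟨h1, h2⟩
      exact ⟨fun i => (h1 i).2, fun i => (h1 i).1, h2⟩
    · rintro ⟨h1, h2, h3⟩
      exact ⟨fun i => ⟨h2 i, h1 i⟩, h3⟩
  have hGset : ({a | a ∈ elsF F H ∧ P H a} : Set (Fin (r' + 2) → ℤ)) = (G : Set (Fin (r' + 2) → ℤ)) := by
    ext a
    rw [hG]
    simp only [Set.mem_ofPred_eq, Finset.coe_filter]
    rw [hEset]
    rfl
  rw [hEset] at hGset ⊢
  rw [hGset, Set.ncard_coe_finset, Set.ncard_coe_finset]
  have hsum : (G.card : ℝ) + N.card = E.card := by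
    exact_mod_cast Finset.card_filter_add_card_filter_not (s := E) (fun a => P H a)
  obtain ⟨S, hS, hScard⟩ := hpos H hH1
  have hSE : S ⊆ E := by
    intro a ha
    obtain ⟨h1, h2, h3⟩ := hS a ha
    rw [hE, Finset.mem_filter]
    exact ⟨h1, h2, h3⟩
  have hElow : c * (2 * (H : ℝ) + 1) ^ (r' + 2) ≤ E.card :=
    hScard.trans (by exact_mod_cast Finset.card_le_card hSE)
  have hNup : (N.card : ℝ) ≤ ε * c / 2 * (H : ℝ) ^ (r' + 2) := by
    apply hbd H hH0 N
    intro a ha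
    rw [hN, Finset.mem_filter] at ha
    obtain ⟨ha1, h5⟩ := ha
    have haE : a ∈ elsF F H := by rw [hEset]; exact ha1
    rw [hE, Finset.mem_filter] at ha1
    exact ⟨ha1.1, ha1.2.1, ha1.2.2, fun hwa => h5 (hP H a haE hwa)⟩
  have hEpos : (0 : ℝ) < E.card := lt_of_lt_of_le (by positivity) hElow
  have hlt : (N.card : ℝ) < ε * E.card := by
    calc (N.card : ℝ) ≤ ε * c / 2 * (H : ℝ) ^ (r' + 2) := hNup
      _ ≤ ε * c / 2 * (2 * (H : ℝ) + 1) ^ (r' + 2) := by
          gcongr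
          have : (0 : ℝ) ≤ H := Nat.cast_nonneg H
          linarith
      _ = ε / 2 * (c * (2 * (H : ℝ) + 1) ^ (r' + 2)) := by ring
      _ ≤ ε / 2 * E.card := by gcongr
      _ < ε * E.card := by nlinarith
  have h6 : (G.card : ℝ) / E.card - 1 = -(N.card / E.card) := by
    rw [← hsum]
    have : (G.card : ℝ) + N.card ≠ 0 := by rw [hsum]; exact hEpos.ne'
    field_simp
    ring
  rw [h6, abs_neg, abs_of_nonneg (by positivity), div_lt_iff₀ hEpos]
  exact hlt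

/-- From fixed precision to precision tending to infinity. -/
theorem tend_of_fixed (f : ℕ → ℕ → ℝ) (h : ∀ j : ℕ, ∀ ε : ℝ, 0 < ε → ∃ H2 : ℕ, ∀ H : ℕ, H2 ≤ H → |f (j + 2) H - 1| < ε) :
    ∃ m : ℕ → ℕ, Tendsto m atTop atTop ∧ Tendsto (fun H : ℕ => f (m H) H) atTop (𝓝 1) := by
  classical
  have hj : ∀ j : ℕ, ∃ H2 : ℕ, ∀ H : ℕ, H2 ≤ H → |f (j + 2) H - 1| < 1 / ((j : ℝ) + 1) :=
    fun j => h j _ (by positivity)
  choose H2 hH2 using hj
  set J : ℕ → ℕ := fun H => Nat.findGreatest (fun j => ∀ i ≤ j, H2 i ≤ H) H with hJ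
  have hJge : ∀ j0 : ℕ, ∀ H : ℕ, max j0 ((Finset.range (j0 + 1)).sup H2) ≤ H → j0 ≤ J H := by
    intro j0 H hH
    apply Nat.le_findGreatest ((le_max_left _ _).trans hH)
    intro i hi
    exact (Finset.le_sup (f := H2) (Finset.mem_range.mpr (by omega))).trans ((le_max_right _ _).trans hH)
  have hJspec : ∀ H : ℕ, H2 0 ≤ H → H2 (J H) ≤ H := by
    intro H hH
    have h1 : ∀ i ≤ J H, H2 i ≤ H := by
      apply Nat.findGreatest_spec (P := fun j => ∀ i ≤ j, H2 i ≤ H) (Nat.zero_le H)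
      intro i hi
      have : i = 0 := by omega
      rw [this]; exact hH
    exact h1 _ le_rfl
  have hJt : Tendsto J atTop atTop := by
    rw [tendsto_atTop_atTop]
    intro j0
    exact ⟨_, fun H hH => hJge j0 H hH⟩
  refine ⟨fun H => J H + 2, ?_, ?_⟩
  · exact tendsto_atTop_mono (fun H => Nat.le_add_right (J H) 2) hJt
  · rw [Metric.tendsto_atTop]
    intro ε hε
    obtain ⟨j0, hj0⟩ := exists_nat_gt (1 / ε)
    refine ⟨max (H2 0) (max j0 ((Finset.range (j0 + 1)).sup H2)), ?_⟩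
    intro H hH
    have h1 := hJspec H ((le_max_left _ _).trans hH)
    have h2 := hJge j0 H ((le_max_right _ _).trans hH)
    have h3 := hH2 (J H) H h1
    rw [Real.dist_eq]
    refine h3.trans ?_
    have h4 : (j0 : ℝ) ≤ J H := by exact_mod_cast h2
    rw [div_lt_iff₀ (by positivity)]
    rw [div_lt_iff₀ hε] at hj0
    nlinarith

end Pool.Agent.H888.SF
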