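import Pool.Agent.H888.SF.Basic

set_option linter.unusedVariables false
set_option linter.unusedSectionVars false
set_option linter.style.haveILetI false

namespace Pool.Agent.H888.SF

open Finset MvPolynomial Pool.Agent.H888.DH

/-- A rational zero of `∑ a_i F_i` close (projectively) to the real target `y` and to the `p`-adic
targets. -/
def ApproxSF {s : ℕ} {n : Fin s → ℕ} (F : ∀ i, MvPolynomial (Fin (n i)) ℤ) (m H : ℕ) (a : Fin s → ℤ)
    (y : Blk n ℝ) (u : ∀ p : ℕ, ∀ _ : Fact p.Prime, Blk n ℤ_[p]) : Prop :=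
  ∃ z : Blk n ℤ, z ≠ 0 ∧ val F a z = 0 ∧ (∀ i l, (z i l) ^ 2 ≤ (H : ℤ)) ∧
    (∃ c : ℝ, c ≠ 0 ∧ ∀ i l, |c * (z i l : ℝ) - y i l| ≤ 1 / m) ∧
    ∀ (p : ℕ) (hp : Fact p.Prime), p ≤ m → ∃ c : ℚ_[p], c ≠ 0 ∧
      ∀ i l, ‖c * (z i l : ℚ_[p]) - (u p hp i l : ℚ_[p])‖ ≤ (p : ℝ) ^ (-(m : ℤ))

/-- `|X| ^ 3 ≤ |X| ^ k` for integers. -/
theorem abs_cube_le (X : ℤ) (k : ℕ) (hk : 3 ≤ k) : |X| ^ 3 ≤ |X| ^ k := by
  rcases eq_or_ne X 0 with h | h
  · rw [h, abs_zero, zero_pow (by norm_num), zero_pow (by omega)]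
  · exact pow_le_pow_right₀ (Int.one_le_abs h) hk

theorem transfer {k s : ℕ} {n : Fin s → ℕ} {F : ∀ i, MvPolynomial (Fin (n i)) ℤ} (hA : Adm k s n F)
    (hk : 3 ≤ k) (m m2 H H' : ℕ) (hm : 1 ≤ m) (hmm : m ≤ m2) (hm22 : 2 ≤ m2)
    (a : Fin s → ℤ) (v : Blk n ℤ) (lam : Fin s → ℝ) (hlam : ∀ i, 0 < lam i)
    (hv0 : ∀ i, aeval (v i) (F i) ≠ (0 : ℤ))
    (y : Blk n ℝ) (hy1 : ∀ i l, |y i l| ≤ 1)
    (u : ∀ p : ℕ, ∀ _ : Fact p.Prime, Blk n ℤ_[p])
    (hvy : ∀ i l, |(v i l : ℝ) / lam i - y i l| ≤ 1 / (8 * m))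
    (x : Fin s → ℝ) (hx : ∀ i, |x i - 1| ≤ 1 / (8 * m))
    (μ : ℝ) (hμ : 0 < μ) (Y : Fin s → ℝ) (hY : ∀ i, μ * Y i = x i / lam i) (hYone : ∃ i, |Y i| = 1)
    (V : ℕ) (hV : ∀ i l, |v i l| ≤ (V : ℤ)) (hm2 : 2 * m * μ * V ≤ m2)
    (U : ∀ p : ℕ, ∀ _ : Fact p.Prime, Fin s → ℤ_[p])
    (hU : ∀ (p : ℕ) (hp : Fact p.Prime), p ≤ m → ∀ i, (p : ℤ_[p]) ^ m ∣ U p hp i - 1)
    (hvu : ∀ (p : ℕ) (hp : Fact p.Prime), p ≤ m → ∀ i l, (p : ℤ_[p]) ^ m ∣ (v i l : ℤ_[p]) - u p hp i l)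
    (hH : (V : ℤ) ^ 6 * (H' : ℤ) ^ 2 ≤ (H : ℤ) ^ 3)
    (h : ApproxQ k s m2 H' (fun i => a i * aeval (v i) (F i)) Y U) : ApproxSF F m H a y u := by
  obtain ⟨X, T, hT, hXH, hX0, hXr, hXp⟩ := h
  have hTR : (T : ℝ) ≠ 0 := by exact_mod_cast hT
  have hmR : (1 : ℝ) ≤ m := by exact_mod_cast hm
  have hm2R : (2 : ℝ) ≤ m2 := by exact_mod_cast hm22
  have hvne : ∀ i, v i ≠ 0 := by
    intro i h0
    apply hv0 i
    have h1 := aeval_scale (hA.hom i) (0 : ℤ) (v i)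
    rw [zero_pow (by omega), zero_mul] at h1
    rw [← h1]
    congr 2
    funext l
    rw [h0]; simp
  refine ⟨fun i l => X i * v i l, ?_, ?_, ?_, ⟨μ / T, div_ne_zero hμ.ne' hTR, ?_⟩, ?_⟩
  · intro h0
    obtain ⟨i, hi⟩ := hYone
    have hXi : X i ≠ 0 := by
      intro hXi
      have h1 := hXr i
      rw [hXi, Int.cast_zero, zero_div, zero_sub, abs_neg, hi] at h1
      rw [le_div_iff₀ (by linarith)] at h1
      linarith
    apply hvne i
    funext l
    have h2 := congrFun (congrFun h0 i) l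
    simp only [Pi.zero_apply, mul_eq_zero] at h2
    exact h2.resolve_left hXi
  · unfold val
    have : ∀ i, a i * aeval (fun l => X i * v i l) (F i) = a i * aeval (v i) (F i) * X i ^ k := by
      intro i
      rw [aeval_scale (hA.hom i) (X i) (v i)]; ring
    rw [Finset.sum_congr rfl (fun i _ => this i)]
    exact hX0
  · intro i l
    have h1 : |X i| ^ 3 ≤ (H' : ℤ) := (abs_cube_le (X i) k hk).trans (hXH i)
    have h2 : |X i| ^ 6 ≤ (H' : ℤ) ^ 2 := by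
      calc |X i| ^ 6 = (|X i| ^ 3) ^ 2 := by ring
        _ ≤ (H' : ℤ) ^ 2 := by gcongr
    have h3 : |v i l| ^ 6 ≤ (V : ℤ) ^ 6 := by
      have := hV i l
      gcongr
    have h4 : ((X i * v i l) ^ 2) ^ 3 ≤ (H : ℤ) ^ 3 := by
      calc ((X i * v i l) ^ 2) ^ 3 = |v i l| ^ 6 * |X i| ^ 6 := by
            rw [← mul_pow, ← abs_mul, ← abs_pow, abs_of_nonneg (by positivity)]; ring
        _ ≤ (V : ℤ) ^ 6 * (H' : ℤ) ^ 2 := by gcongr
        _ ≤ _ := hH
    by_contra hc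
    push Not at hc
    have : (H : ℤ) ^ 3 < ((X i * v i l) ^ 2) ^ 3 := by gcongr
    linarith
  · intro i l
    have h1 := hXr i
    set e := (X i : ℝ) / T - Y i with he
    have hXT : (X i : ℝ) / T = Y i + e := by rw [he]; ring
    set w := (v i l : ℝ) / lam i with hw
    have hvw : (v i l : ℝ) = lam i * w := by rw [hw]; field_simp [(hlam i).ne']
    have e1 : μ / T * ((X i * v i l : ℤ) : ℝ) - y i l =
        (x i - 1) * w + (w - y i l) + μ * e * (v i l) := by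
      have : μ / T * ((X i * v i l : ℤ) : ℝ) = μ * ((X i : ℝ) / T) * v i l := by
        push_cast; field_simp
      rw [this, hXT]
      have h2 : μ * (Y i + e) * v i l = (μ * Y i) * v i l + μ * e * v i l := by ring
      rw [h2, hY i]
      have h3 : x i / lam i * v i l = x i * w := by rw [hw]; ring
      rw [h3]; ring
    rw [e1]
    have hw2 : |w| ≤ 2 := by
      have h3 : |w| ≤ |w - y i l| + |y i l| := by
        have := abs_add_le (w - y i l) (y i l)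
        rwa [sub_add_cancel] at this
      have h4 := hvy i l
      have h5 : 1 / (8 * (m : ℝ)) ≤ 1 := by
        rw [div_le_one (by positivity)]; linarith
      linarith [hy1 i l]
    have b1 : |(x i - 1) * w| ≤ 1 / (8 * m) * 2 := by
      rw [abs_mul]
      have := hx i
      gcongr
    have hVR : |(v i l : ℝ)| ≤ V := by
      have := hV i l
      exact_mod_cast this
    have b3 : |μ * e * (v i l)| ≤ 1 / (2 * m) := by
      rw [abs_mul, abs_mul, abs_of_pos hμ]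
      have hm2pos : (0 : ℝ) < m2 := by linarith
      calc μ * |e| * |(v i l : ℝ)| ≤ μ * (1 / m2) * V := by gcongr
        _ = (2 * m * μ * V) / m2 * (1 / (2 * m)) := by field_simp
        _ ≤ 1 * (1 / (2 * m)) := by
            gcongr
            rw [div_le_one hm2pos]; exact hm2
        _ = _ := one_mul _
    calc |(x i - 1) * w + (w - y i l) + μ * e * (v i l)|
        ≤ |(x i - 1) * w + (w - y i l)| + |μ * e * (v i l)| := abs_add_le _ _
      _ ≤ |(x i - 1) * w| + |w - y i l| + |μ * e * (v i l)| := by gcongr; exact abs_add_le _ _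
      _ ≤ 1 / (8 * m) * 2 + 1 / (8 * m) + 1 / (2 * m) := by
          have := hvy i l
          gcongr
      _ ≤ 1 / m := by
          have hm0 : (0 : ℝ) < m := by linarith
          have : 1 / (8 * (m : ℝ)) * 2 + 1 / (8 * m) + 1 / (2 * m) = 7 / 8 * (1 / m) := by
            field_simp; norm_num
          rw [this]
          have : 0 < 1 / (m : ℝ) := by positivity
          linarith
  · intro p hp hpm
    have hTp : (T : ℚ_[p]) ≠ 0 := by exact_mod_cast hT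
    refine ⟨1 / (T : ℚ_[p]), one_div_ne_zero hTp, ?_⟩
    intro i l
    have hpR : (1 : ℝ) < p := by exact_mod_cast hp.out.one_lt
    have e1 : 1 / (T : ℚ_[p]) * ((X i * v i l : ℤ) : ℚ_[p]) - (u p hp i l : ℚ_[p]) =
        ((X i : ℚ_[p]) / T - (U p hp i : ℚ_[p])) * (v i l : ℚ_[p]) +
        ((((U p hp i - 1) * (v i l : ℤ_[p]) + ((v i l : ℤ_[p]) - u p hp i l) : ℤ_[p])) : ℚ_[p]) := by
      push_cast
      field_simp
      ring
    rw [e1]
    have b1 : ‖((X i : ℚ_[p]) / T - (U p hp i : ℚ_[p])) * (v i l : ℚ_[p])‖ ≤ (p : ℝ) ^ (-(m : ℤ)) := by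
      rw [norm_mul]
      have h1 := hXp p hp (hpm.trans hmm) i
      have h2 : ‖((v i l : ℤ) : ℚ_[p])‖ ≤ 1 := Padic.norm_int_le_one _
      calc _ ≤ (p : ℝ) ^ (-(m2 : ℤ)) * 1 := by gcongr
        _ ≤ (p : ℝ) ^ (-(m : ℤ)) := by
            rw [mul_one]
            apply zpow_le_zpow_right₀ hpR.le
            have : (m : ℤ) ≤ m2 := by exact_mod_cast hmm
            linarith
    have b2 : ‖((((U p hp i - 1) * (v i l : ℤ_[p]) + ((v i l : ℤ_[p]) - u p hp i l) : ℤ_[p])) : ℚ_[p])‖ ≤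
        (p : ℝ) ^ (-(m : ℤ)) := by
      rw [← PadicInt.norm_def]
      apply padic_norm_le
      exact dvd_add (Dvd.dvd.mul_right (hU p hp hpm i) _) (hvu p hp hpm i l)
    exact (Padic.nonarchimedean _ _).trans (max_le b1 b2)

end Pool.Agent.H888.SF
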